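import Pool.Agent.SFJ.Targets
import Pool.Agent.SFG.All
import Pool.Agent.SFH.Final

/-!
# SFJ: the final theorem from the targets
-/

set_option autoImplicit false

open Finset

namespace Pool.Agent.SFJ

open Pool.Agent.StarF (starForest ramsey)
open Pool.Agent.SFB (Con dg nc)
open Pool.Agent.SFH (T_XLT)
open Pool.Agent.SFG (pf PF Gen Rel vv ww supF RelF T_LOW T_CNV T_LOB T_YFN)

namespace Final_

/-- The parameters. -/
lemma par (k : ℕ) (hk : 2 ≤ k) (q : ℕ) (hq : q = 2 ^ (k + 6)) : ∀ E0 : ℕ,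
    ∃ n₀ : ℕ, 1 ≤ n₀ ∧ gg k q ≤ n₀ ∧ ∀ (a : ℕ → ℕ) (M : ℕ),
    (∀ s t, s ≤ t → t < k → a t ≤ a s) →
    (∀ t < k, n₀ ≤ a t) → (∀ i < k, ∑ t ∈ range i, a t + 2 * a i ≤ M) →
    2 * a 0 + gg k q ≤ M →
    ∃ e, E0 ≤ e ∧ ∀ N, M ≤ N → N ≤ M + 3 * k → Par a k q e N := by
  intro E0
  refine ⟨2 ^ (k + 4) * (E0 + 100000 * k ^ 3 + 1) + 200 * k ^ 2 + 3 * k + 1 + gg k q, by omega,
    by omega, ?_⟩
  intro a M hanti hbig hM htw
  have ha0 := hbig 0 (by omega)
  have hp : 0 < 2 ^ (k + 4) := by positivity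
  obtain ⟨R, hR⟩ : ∃ R, 2 ^ (k + 4) = R := ⟨_, rfl⟩
  obtain ⟨e, he⟩ : ∃ e, M / R = e := ⟨_, rfl⟩
  rw [hR] at ha0 hp
  have he1 : R * e ≤ M := by
    rw [← he]
    exact Nat.mul_div_le M R
  have he2 : M < R * e + R := by
    rw [← he]
    exact Nat.lt_mul_div_succ M hp
  have hEe : E0 + 100000 * k ^ 3 + 1 ≤ e := by
    rw [← he]
    apply (Nat.le_div_iff_mul_le hp).2
    rw [Nat.mul_comm]
    omega
  have hall : ∑ t ∈ range k, a t + 16 * e ≤ M := by
    have h1 := Pool.Agent.SFH.Final_.halving a k M hM k le_rfl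
    have h2 : 2 ^ k * (16 * e) ≤ M := by
      calc 2 ^ k * (16 * e) = R * e := by rw [← hR, pow_add]; ring
        _ ≤ M := he1
    have h4 : 2 ^ k * (∑ t ∈ range k, a t + 16 * e) ≤ 2 ^ k * M := by
      rw [Nat.mul_add]
      omega
    exact Nat.le_of_mul_le_mul_left h4 (by positivity)
  refine ⟨e, by omega, ?_⟩
  intro N hMN hNM
  refine ⟨hk, hanti, fun i hi => (hM i hi).trans hMN, hall.trans hMN, htw.trans hMN, ?_, ?_, ?_⟩
  · have h1 : q * e = 4 * (R * e) := by
      rw [hq, ← hR, pow_add, pow_add]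
      ring
    have h2 : R ≤ R * e := Nat.le_mul_of_pos_right _ (by omega)
    rw [h1]
    omega
  · intro t ht
    have h1 := hbig t ht
    omega
  · omega

end Final_

open Final_ Pool.Agent.SFH.Final_ in
/-- The theorem. -/
theorem final (hUPP : T_UPP) (hLOW : T_LOW) (hCNV : T_CNV) (hLOB : T_LOB) (hYFN : T_YFN)
    (hYUB : T_YUB) (hYUP : T_YUP) (hYLV : T_YLV) (hYLW : T_YLW) (hXUT : T_XUT) (hXLT : T_XLT)
    (k : ℕ) (hk : 2 ≤ k) :
    ∃ n₀ : ℕ, ∀ n : Fin k → ℕ, Antitone n → (∀ i, n₀ ≤ n i) →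
      (∃ j, 2 * n ⟨0, by omega⟩ + n₀ ≤ n j + ∑ l ∈ Iic j, n l) →
      ramsey (starForest n) (starForest n) =
        sInf {N : ℕ | ∀ x y c : ℕ, x + y = N → c + 1 < k → (c < x ∨ c = 0) → PF n x y c} ∧
      ((∀ j, n j + ∑ l ∈ Iic j, n l ≤ ramsey (starForest n) (starForest n)) ∧
        ∃ j, ramsey (starForest n) (starForest n) ≤ n j + ∑ l ∈ Iic j, n l + (k - 1)) ∧
      ((∀ A B : Finset (Fin k), A ≠ B → ∑ i ∈ A, n i ≤ ∑ i ∈ B, n i →
          ∑ i ∈ A, n i + 5 * k ^ 2 < ∑ i ∈ B, n i) →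
        ramsey (starForest n) (starForest n) =
          (univ.filter (fun j : Fin k => 0 < (j : ℕ))).sup
            (fun j => n j + ∑ l ∈ Iic j, n l + max (vv k j (n j)) (supF n j))) ∧
      (∀ h : k = 3, ramsey (starForest n) (starForest n) =
        max (n ⟨0, by omega⟩ + 2 * n ⟨1, by omega⟩ + 1)
          (n ⟨0, by omega⟩ + n ⟨1, by omega⟩ + 2 * n ⟨2, by omega⟩ +
            (if n ⟨0, by omega⟩ = n ⟨1, by omega⟩ ∨
              n ⟨1, by omega⟩ + n ⟨2, by omega⟩ ≤ n ⟨0, by omega⟩ then 1 else 0))) ∧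
      ((∀ i j, n i = n j) → ∀ j, ramsey (starForest n) (starForest n) =
        (k + 1) * n j + k - 2) := by
  obtain ⟨q, hq⟩ : ∃ q, q = 2 ^ (k + 6) := ⟨_, rfl⟩
  have hq1 : 1 ≤ q := by
    rw [hq]
    exact Nat.one_le_two_pow
  obtain ⟨E0, hE0⟩ := hUPP k q hk hq1
  obtain ⟨n₀, hn0, hn0g, hpar'⟩ := Pool.Agent.SFJ.Final_.par k hk q hq E0
  obtain ⟨n₂, hn2⟩ := Pool.Agent.SFG.all_final k (1 / 2 / (k : ℝ)) (by positivity)
  refine ⟨n₀ + n₂, ?_⟩
  intro n hanti hbig hdom
  have hanti0 := hanti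
  obtain ⟨a, rfl⟩ := Pool.Agent.SFG.Final_.nat_sizes n
  have hanti' : ∀ s t, s ≤ t → t < k → a t ≤ a s := fun s t hst ht =>
    hanti (a := (⟨s, by omega⟩ : Fin k)) (b := ⟨t, ht⟩) hst
  have hbig' : ∀ t < k, n₀ ≤ a t := fun t ht => by
    have := hbig ⟨t, ht⟩
    simp only at this
    omega
  obtain ⟨K, hKr, hKmax⟩ := exists_max_image (range k)
    (fun i => ∑ t ∈ range (i + 1), a t + a i) ⟨0, mem_range.2 (by omega)⟩
  rw [mem_range] at hKr
  set M : ℕ := ∑ t ∈ range (K + 1), a t + a K with hMdef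
  have hMmax : ∀ i < k, ∑ t ∈ range (i + 1), a t + a i ≤ M := fun i hi =>
    hKmax i (mem_range.2 hi)
  have hMlo : ∀ i < k, ∑ t ∈ range i, a t + 2 * a i ≤ M := by
    intro i hi
    have := hMmax i hi
    rw [sum_range_succ] at this
    omega
  have hdom' : 2 * a 0 + gg k q ≤ M := by
    obtain ⟨j, hj⟩ := hdom
    simp only [Pool.Agent.SFG.Final_.sum_Iic] at hj
    have h2 := hMmax j j.2
    omega
  have ha0 : 1 ≤ a 0 := by
    have := hbig' 0 (by omega)
    omega
  have hg1 : 1 ≤ gg k q := by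
    unfold gg
    omega
  have hK1 : 1 ≤ K := by
    by_contra hK0
    have hK0' : K = 0 := by omega
    rw [hMdef, hK0'] at hdom'
    simp only [zero_add, range_one, sum_singleton] at hdom'
    omega
  obtain ⟨e, he0, hP⟩ := hpar' a M hanti' hbig' hMlo hdom'
  have haK : 1 ≤ a K := by
    have := hbig' K hKr
    omega
  have hlow : ∀ N < M, ∃ x y c : ℕ, x + y = N ∧ c + 1 < k ∧ (c < x ∨ c = 0) ∧
      ¬ pf a k x y c := by
    intro N hN
    obtain ⟨x, y, hxy, hnp⟩ := hLOB a k K hK1 hKr hanti' haK N hN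
    exact ⟨x, y, 0, hxy, by omega, Or.inr rfl, hnp⟩
  have hup := Pool.Agent.SFG.Final_.upper k (by omega) a M
    (fun i hi => by have := hMmax i hi; omega)
  obtain ⟨hmain, hMle⟩ := bvl hLOW hCNV a k M (M + 3 * k - 2)
    (fun N h1 h2 h3 => hE0 a e N he0 (hP N h1 (by omega)) h3) hlow hup
  have hub : ∀ x y c : ℕ, x + y = M + (k - 1) → c + 1 < k → pf a k x y c :=
    hYUB a k q e _ (hP _ (by omega) (by omega)) (fun i hi _ => by
      have := hMmax i hi
      omega)
  have hle := le_value hCNV a k _ hub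
  refine ⟨hmain, ⟨?_, ?_⟩, ?_, ?_, ?_⟩
  · intro j
    rw [hmain]
    have h1 := hMmax j j.2
    simp only [Pool.Agent.SFG.Final_.sum_Iic]
    omega
  · refine ⟨⟨K, hKr⟩, ?_⟩
    rw [hmain]
    simp only [Pool.Agent.SFG.Final_.sum_Iic]
    omega
  · intro hgen
    rw [hmain]
    have hG : Gen a k (5 * k ^ 2) := (hYFN k a ⟨0, by omega⟩).1 hgen
    simp only [Pool.Agent.SFG.Final_.sum_Iic]
    set b : ℕ := (univ.filter (fun j : Fin k => 0 < (j : ℕ))).sup
      (fun j => a j + ∑ t ∈ range ((j : ℕ) + 1), a t +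
        max (vv k j (a j)) (supF (fun i : Fin k => a i) j)) with hb
    have hbj : ∀ j : Fin k, 0 < (j : ℕ) → a j + ∑ t ∈ range ((j : ℕ) + 1), a t +
        max (vv k j (a j)) (supF (fun i : Fin k => a i) j) ≤ b := fun j hj =>
      Finset.le_sup (f := fun j : Fin k => a j + ∑ t ∈ range ((j : ℕ) + 1), a t +
        max (vv k j (a j)) (supF (fun i : Fin k => a i) j)) (mem_filter.2 ⟨mem_univ _, hj⟩)
    have hbM : M ≤ b := by
      have := hbj ⟨K, hKr⟩ hK1
      simp only at this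
      omega
    have hbu : b ≤ M + 3 * k := by
      refine Finset.sup_le (fun j hj => ?_)
      have h1 := hMmax j j.2
      have h2 := vv_le k j (a j) j.2
      have h3 := supF_le (fun i : Fin k => a i) j
      have h4 : max (vv k j (a j)) (supF (fun i : Fin k => a i) j) ≤ 2 * k := max_le h2 h3
      omega
    refine value hCNV a k M b hlow ?_ ?_
    · apply hYUP a k q e b (hP b hbM hbu) hG
      · intro i hi hi1
        have h1 := hbj ⟨i, hi⟩ hi1
        have h2 := le_max_left (vv k i (a i)) (supF (fun i : Fin k => a i) ⟨i, hi⟩)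
        simp only at h1
        omega
      · intro i hi hi1 P hP1 hP2 hP3 hP4
        have h1 := hbj ⟨i, hi⟩ hi1
        have h2 := le_max_right (vv k i (a i)) (supF (fun i : Fin k => a i) ⟨i, hi⟩)
        have h3 := (hYFN k a ⟨i, hi⟩).2.1 P hP1 hP2 hP3 hP4
        simp only at h1 h3
        omega
    · intro N hMN hNb
      have hPN := hP N hMN (by omega)
      have h1 : N < b := hNb
      rw [hb, Finset.lt_sup_iff] at h1
      obtain ⟨j, hj, hjN⟩ := h1
      rw [mem_filter] at hj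
      have hMj := hMmax j j.2
      rcases Nat.lt_or_ge N (a j + ∑ t ∈ range ((j : ℕ) + 1), a t + vv k j (a j)) with h | h
      · exact hYLV a k q e N j hPN hG hj.2 j.2 (by omega)
      · have h2 : N < a j + ∑ t ∈ range ((j : ℕ) + 1), a t + supF (fun i : Fin k => a i) j := by
          rcases le_total (vv k j (a j)) (supF (fun i : Fin k => a i) j) with h3 | h3
          · rwa [max_eq_right h3] at hjN
          · rw [max_eq_left h3] at hjN
            omega
        have h3 : 0 < supF (fun i : Fin k => a i) j := by omega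
        obtain ⟨P, hP1, hP2, hP3, hP4, hP5⟩ := (hYFN k a j).2.2 h3
        exact hYLW a k q e N j P hPN hG hj.2 j.2 hP1 hP2 hP3 hP4 (by omega)
  · intro h3
    subst h3
    rw [hmain]
    have hs0 := hMmax 0 (by omega)
    have hs1 := hMmax 1 (by omega)
    have hs2 := hMmax 2 (by omega)
    simp only [sum_range_succ, range_zero, sum_empty, zero_add] at hs0 hs1 hs2
    have hif : (if a 0 = a 1 ∨ a 1 + a 2 ≤ a 0 then 1 else 0) ≤ 1 := by
      split_ifs <;> omega
    have hMv : M = a 0 + 2 * a 1 ∨ M = a 0 + a 1 + 2 * a 2 := by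
      have hK' : K = 1 ∨ K = 2 := by omega
      rcases hK' with h | h
      · left
        rw [hMdef, h]
        simp only [sum_range_succ, range_zero, sum_empty, zero_add]
        omega
      · right
        rw [hMdef, h]
        simp only [sum_range_succ, range_zero, sum_empty, zero_add]
        omega
    have hmx : M ≤ max (a 0 + 2 * a 1 + 1)
        (a 0 + a 1 + 2 * a 2 + (if a 0 = a 1 ∨ a 1 + a 2 ≤ a 0 then 1 else 0)) := by
      rcases hMv with h | h
      · exact le_trans (by omega) (le_max_left _ _)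
      · exact le_trans (by omega) (le_max_right _ _)
    have hmu : max (a 0 + 2 * a 1 + 1)
        (a 0 + a 1 + 2 * a 2 + (if a 0 = a 1 ∨ a 1 + a 2 ≤ a 0 then 1 else 0)) ≤
        M + 3 * 3 := max_le (by omega) (by omega)
    have hP0 := hP M le_rfl (by omega)
    refine value hCNV a 3 M _ hlow ?_ ?_
    · exact hXUT a q e _ (hP _ hmx hmu) rfl
    · intro N hMN hNb
      have h2 := hP0.min 2 (by omega)
      exact hXLT a N (hanti' 0 1 (by omega) (by omega)) (hanti' 1 2 (by omega) (by omega))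
        (by omega) (by omega) (by omega) hNb
  · intro heq j
    have hkr : (0 : ℝ) < k := by
      have : 0 < k := by omega
      exact_mod_cast this
    have hlast : k - 1 < k := by omega
    have heq' : ∀ t < k, a t = a (k - 1) := fun t ht => heq ⟨t, ht⟩ ⟨k - 1, hlast⟩
    have hsum : ∀ i < k, ∑ t ∈ range (i + 1), a t = (i + 1) * a (k - 1) := by
      intro i hi
      rw [sum_congr rfl (fun t ht => heq' t (by rw [mem_range] at ht; omega)), sum_const,
        card_range, smul_eq_mul]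
    have h1 := (hn2 _ hanti0 (fun i => le_trans (by omega) (hbig i)) ⟨k - 1, hlast⟩ (by
      simp only
      omega) (by
      intro i hi
      have hik : (i : ℕ) + 1 ≤ k - 1 := by
        have h2 := i.2
        have h3 : (i : ℕ) ≠ k - 1 := fun h => hi (Fin.ext h)
        omega
      simp only [Pool.Agent.SFG.Final_.sum_Iic]
      rw [hsum i i.2, hsum (k - 1) hlast, heq' i i.2]
      have h4 : (((a (k - 1) + ((i : ℕ) + 1) * a (k - 1) : ℕ)) : ℝ) ≤ k * a (k - 1) := by
        have : a (k - 1) + ((i : ℕ) + 1) * a (k - 1) ≤ k * a (k - 1) := by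
          calc a (k - 1) + ((i : ℕ) + 1) * a (k - 1) = ((i : ℕ) + 2) * a (k - 1) := by ring
            _ ≤ k * a (k - 1) := Nat.mul_le_mul_right _ (by omega)
        exact_mod_cast this
      have h5 : ((a (k - 1) + (k - 1 + 1) * a (k - 1) : ℕ) : ℝ) =
          ((k : ℝ) + 1) * a (k - 1) := by
        have : k - 1 + 1 = k := by omega
        rw [this]
        push_cast
        ring
      rw [h5]
      have h6 : (1 + 1 / 2 / (k : ℝ)) * ((k : ℝ) * a (k - 1)) =
          ((k : ℝ) + 1 / 2) * a (k - 1) := by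
        field_simp
      have h7 : (1 + 1 / 2 / (k : ℝ)) * ((a (k - 1) + ((i : ℕ) + 1) * a (k - 1) : ℕ) : ℝ) ≤
          (1 + 1 / 2 / (k : ℝ)) * ((k : ℝ) * a (k - 1)) :=
        mul_le_mul_of_nonneg_left h4 (by positivity)
      have h8 : (0 : ℝ) ≤ a (k - 1) := Nat.cast_nonneg _
      linarith)).2.2.2 (fun i => heq i _)
    rw [heq j ⟨k - 1, hlast⟩]
    exact h1

end Pool.Agent.SFJ
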