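import Pool.Agent.SFJ.Targets
import Pool.Agent.SFG.P_CL1

/-!
# SFJ: CLT, the classification of the vertices
-/

set_option autoImplicit false

open Finset

namespace Pool.Agent.SFJ

open Pool.Agent.SFH (HS Sto T_THE T_PKE T_SLK T_VRG T_CMN T_PWB T_RFA T_RFB T_VIO T_NKB T_TYZ
  T_STR T_XLT)

open Pool.Agent.StarF (starForest ramsey)
open Pool.Agent.SFB (Con dg nc Two)
open Pool.Agent.SFG (Cov Vio Sys Out Typ Tig pf PF)

namespace CLT_

open Pool.Agent.SFB (mem_dg mem_nc)
open Pool.Agent.SFB.CL1_ (sd enum)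

variable {V : Type} [Fintype V] [DecidableEq V]

/-- The choice of the centres. -/
theorem cen (u : V) (k K M : ℕ) (D : V → Finset V) (X0 : Finset V) (A1 : Finset ℕ)
    (hN : 2 * M < Fintype.card V)
    (T1 : k + 1 ≤ (univ.filter (fun v => (symmDiff (D v) X0).card ≤ M)).card)
    (T2 : k + 1 ≤ (univ.filter (fun v => (symmDiff (D v) X0ᶜ).card ≤ M)).card) :
    ∃ c : ℕ → V, Set.InjOn c (Set.Iio k) ∧ c K = u ∧
      (∀ t < k, t ≠ K → t ∈ A1 → (symmDiff (D (c t)) X0).card ≤ M) ∧
      ∀ t < k, t ≠ K → t ∉ A1 → (symmDiff (D (c t)) X0ᶜ).card ≤ M := by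
  set S1 := univ.filter (fun v => (symmDiff (D v) X0).card ≤ M) with hS1
  set S2 := univ.filter (fun v => (symmDiff (D v) X0ᶜ).card ≤ M) with hS2
  have e1 : k ≤ (S1.erase u).card := by
    have := Finset.pred_card_le_card_erase (s := S1) (a := u)
    omega
  have e2 : k ≤ (S2.erase u).card := by
    have := Finset.pred_card_le_card_erase (s := S2) (a := u)
    omega
  obtain ⟨g1, hg1, hi1⟩ := enum u (S1.erase u) k e1
  obtain ⟨g2, hg2, hi2⟩ := enum u (S2.erase u) k e2
  have hno : ∀ v, v ∈ S1 → v ∈ S2 → False := by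
    intro v h1 h2
    have h1' := (Finset.mem_filter.1 h1).2
    have h2' := (Finset.mem_filter.1 h2).2
    have h7 : (univ : Finset V) ⊆ symmDiff (D v) X0 ∪ symmDiff (D v) X0ᶜ := by
      intro x _
      simp only [Finset.mem_union, Finset.mem_symmDiff, Finset.mem_compl]
      tauto
    have h8 := (Finset.card_le_card h7).trans (Finset.card_union_le _ _)
    rw [Finset.card_univ] at h8
    omega
  refine ⟨fun t => if t = K then u else if t ∈ A1 then g1 t else g2 t, ?_, by simp, ?_, ?_⟩
  · intro t ht s hs hts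
    have ht' : t < k := ht
    have hs' : s < k := hs
    dsimp only at hts
    by_cases htK : t = K
    · by_cases hsK : s = K
      · rw [htK, hsK]
      · exfalso
        rw [if_pos htK, if_neg hsK] at hts
        split_ifs at hts with h
        · exact (Finset.mem_erase.1 (hg1 s hs')).1 hts.symm
        · exact (Finset.mem_erase.1 (hg2 s hs')).1 hts.symm
    · by_cases hsK : s = K
      · exfalso
        rw [if_neg htK, if_pos hsK] at hts
        split_ifs at hts with h
        · exact (Finset.mem_erase.1 (hg1 t ht')).1 hts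
        · exact (Finset.mem_erase.1 (hg2 t ht')).1 hts
      · rw [if_neg htK, if_neg hsK] at hts
        by_cases h1 : t ∈ A1
        · by_cases h2 : s ∈ A1
          · rw [if_pos h1, if_pos h2] at hts
            exact hi1 ht' hs' hts
          · exfalso
            rw [if_pos h1, if_neg h2] at hts
            refine hno (g1 t) (Finset.mem_erase.1 (hg1 t ht')).2 ?_
            rw [hts]
            exact (Finset.mem_erase.1 (hg2 s hs')).2
        · by_cases h2 : s ∈ A1
          · exfalso
            rw [if_neg h1, if_pos h2] at hts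
            refine hno (g1 s) (Finset.mem_erase.1 (hg1 s hs')).2 ?_
            rw [← hts]
            exact (Finset.mem_erase.1 (hg2 t ht')).2
          · rw [if_neg h1, if_neg h2] at hts
            exact hi2 ht' hs' hts
  · intro t ht htK h1
    dsimp only
    rw [if_neg htK, if_pos h1]
    exact (Finset.mem_filter.1 (Finset.mem_erase.1 (hg1 t ht)).2).2
  · intro t ht htK h1
    dsimp only
    rw [if_neg htK, if_neg h1]
    exact (Finset.mem_filter.1 (Finset.mem_erase.1 (hg2 t ht)).2).2

/-- Hall's condition for stars whose centres belong to one side, and possibly the star `K`. -/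
theorem side (G : SimpleGraph V) (a : ℕ → ℕ) (k K B M : ℕ) (c : ℕ → V) (u : V) (X : Finset V)
    (J J' E : Finset ℕ) (hcK : c K = u) (hM : M ≤ B + 1) (hk : k ≤ B)
    (hX : ∑ t ∈ J', a t + a K ≤ X.card + 2 * B) (hJ : J ⊆ insert K (J' ∪ E))
    (hE1 : ∑ t ∈ E, a t + 4 * B + 1 ≤ a K)
    (hE2 : ∑ t ∈ E, a t + 4 * B + 1 ≤ (dg G u \ X).card) (t : ℕ) (htJ : t ∈ J)
    (hs : (symmDiff (dg G (c t)) X).card ≤ M) : ∑ s ∈ J, a s + k ≤ (nc G c J).card := by
  obtain ⟨h1, h2, h3⟩ := sd _ _ _ hs
  have h4 : dg G (c t) ⊆ nc G c J := fun w hw => mem_nc.2 ⟨t, htJ, hw⟩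
  have h5 := Finset.card_le_card h4
  have hU : ∑ s ∈ J' ∪ E, a s ≤ ∑ s ∈ J', a s + ∑ s ∈ E, a s := by
    have h := Finset.sum_union_inter (s₁ := J') (s₂ := E) (f := a)
    omega
  by_cases hKJ : K ∈ J
  · have h6 : ∑ s ∈ J, a s ≤ a K + ∑ s ∈ J' ∪ E, a s := by
      have h7 : J.erase K ⊆ J' ∪ E := by
        intro s hs
        rcases Finset.mem_insert.1 (hJ (Finset.mem_of_mem_erase hs)) with h8 | h8
        · exact absurd h8 (Finset.ne_of_mem_erase hs)
        · exact h8
      have h8 := Finset.sum_le_sum_of_subset (f := a) h7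
      have h9 := Finset.sum_erase_add J a hKJ
      omega
    have h7 : (X ∩ dg G (c t)) ∪ (dg G u \ X) ⊆ nc G c J := by
      intro w hw
      rcases Finset.mem_union.1 hw with h | h
      · exact h4 (Finset.mem_inter.1 h).2
      · exact mem_nc.2 ⟨K, hKJ, by rw [hcK]; exact (Finset.mem_sdiff.1 h).1⟩
    have h8 : Disjoint (X ∩ dg G (c t)) (dg G u \ X) := by
      rw [Finset.disjoint_left]
      intro w hw hw2
      exact (Finset.mem_sdiff.1 hw2).2 (Finset.mem_inter.1 hw).1
    have h9 := Finset.card_le_card h7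
    rw [Finset.card_union_of_disjoint h8] at h9
    have h10 := Finset.card_inter_add_card_sdiff X (dg G (c t))
    omega
  · have h6 : J ⊆ J' ∪ E := by
      intro s hs
      rcases Finset.mem_insert.1 (hJ hs) with h7 | h7
      · exact absurd (h7 ▸ hs) hKJ
      · exact h7
    have h7 := Finset.sum_le_sum_of_subset (f := a) h6
    omega

end CLT_

open CLT_ in
open Pool.Agent.SFB (mem_dg mem_nc) in
open Pool.Agent.SFB.CL1_ (sd) in
theorem p_CLT (hTHE : T_THE) (hPKE : T_PKE) (hEMB : Pool.Agent.SFB.T_EMB) : T_CLT := by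
  intro V _ _ G a k K q e B M X0 J1 J2 hP hK1 hKk hkB hBe hN hM hCon hT u
  by_contra hcon
  push Not at hcon
  obtain ⟨hd, hd2, hd1⟩ := hcon
  have hk2 := hP.k2
  have hB1 : 1 ≤ B := by omega
  obtain ⟨hcr1, hcr2⟩ := hP.crit hKk hN
  have hp1 : 1 ≤ 2 ^ k := Nat.one_le_two_pow
  set p := 2 ^ k with hp
  have hpB : B ≤ p * B := Nat.le_mul_of_pos_left _ (by omega)
  have e1 : 1000 * p * B = 1000 * (p * B) := by ring
  have e2 : 16 * p * B = 16 * (p * B) := by ring
  have e3 : p * (2 * (8 * B)) = 16 * (p * B) := by ring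
  rw [e1] at hBe
  rw [e2] at hd hd2 hd1
  set b := p * B with hb
  have hdd : (dg G u ∩ X0).card + (dg G u \ X0).card = (dg G u).card :=
    Finset.card_inter_add_card_sdiff _ _
  set d1 := (dg G u ∩ X0).card with hd1e
  set d2 := (dg G u \ X0).card with hd2e
  obtain ⟨θ, hθ1, hθ2, hθ⟩ := hTHE a k (a K) (a K - d2) (min (a K) d1) (8 * B) (by omega)
    (by rw [← hp, e3]; omega)
  have hθK : θ ≤ a K := hθ2.trans (min_le_left _ _)
  have hθd : θ ≤ d1 := hθ2.trans (min_le_right _ _)
  have hθd2 : a K ≤ θ + d2 := by omega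
  have hfit : ∀ i < k, K < i → ∑ t ∈ Ico (K + 1) i, a t + 2 * a i ≤ a K + B := by
    intro i hi hKi
    have h1 := hP.lo i hi
    have h2 : ∑ t ∈ range i, a t = ∑ t ∈ range K, a t + a K + ∑ t ∈ Ico (K + 1) i, a t := by
      rw [← sum_range_succ, sum_range_add_sum_Ico a (by omega : K + 1 ≤ i)]
    omega
  obtain ⟨E1, hE1s, hE1, hE2⟩ := hPKE a k K θ (8 * B) B hKk hθK hfit hθ
  set E2 := Ico (K + 1) k \ E1 with hE2e
  have hsE1 : ∑ t ∈ E1, a t + 4 * B + 1 ≤ a K ∧ ∑ t ∈ E1, a t + 4 * B + 1 ≤ d2 := by
    rcases hE1 with h | h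
    · rw [h, sum_empty]
      omega
    · omega
  have hsE2 : ∑ t ∈ E2, a t + 4 * B + 1 ≤ a K ∧ ∑ t ∈ E2, a t + 4 * B + 1 ≤ d1 := by
    rcases hE2 with h | h
    · rw [h, sum_empty]
      omega
    · omega
  have hall := hP.all
  have hMN : 2 * M < Fintype.card V := by omega
  obtain ⟨c, hci, hcK, hc1, hc2⟩ := cen u k K M (dg G) X0 (J1 ∪ E1) hMN
    (le_trans (by omega) hT.T1) (le_trans (by omega) hT.T2)
  have hJ1 : ∀ t ∈ J1, t < K := fun t ht =>
    Finset.mem_range.1 (hT.uni ▸ Finset.mem_union_left _ ht)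
  have hJ2 : ∀ t ∈ J2, t < K := fun t ht =>
    Finset.mem_range.1 (hT.uni ▸ Finset.mem_union_right _ ht)
  have hI1 : ∀ t ∈ E1, K < t ∧ t < k := fun t ht => by
    have := Finset.mem_Ico.1 (hE1s ht)
    omega
  have hI2 : ∀ t ∈ E2, K < t ∧ t < k := fun t ht => by
    have := Finset.mem_Ico.1 (Finset.mem_sdiff.1 ht).1
    omega
  have hm1 : ∀ t ∈ J1 ∪ E1, (symmDiff (dg G (c t)) X0).card ≤ M := by
    intro t ht
    rcases Finset.mem_union.1 ht with h | h
    · have := hJ1 t h
      exact hc1 t (by omega) (by omega) ht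
    · have := hI1 t h
      exact hc1 t (by omega) (by omega) ht
  have hm2 : ∀ t ∈ J2 ∪ E2, (symmDiff (dg G (c t)) X0ᶜ).card ≤ M := by
    intro t ht
    rcases Finset.mem_union.1 ht with h | h
    · have h1 := hJ2 t h
      refine hc2 t (by omega) (by omega) ?_
      intro h2
      rcases Finset.mem_union.1 h2 with h3 | h3
      · exact (Finset.disjoint_left.1 hT.dsj) h3 h
      · have := hI1 t h3
        omega
    · have h1 := hI2 t h
      refine hc2 t (by omega) (by omega) ?_
      intro h2
      rcases Finset.mem_union.1 h2 with h3 | h3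
      · have := hJ1 t h3
        omega
      · exact (Finset.mem_sdiff.1 h).2 h3
  refine hCon (hEMB V G k a c hci ?_)
  intro J hJ hJne
  have hC : ((range k).image c).card ≤ k := by
    have := Finset.card_image_le (s := range k) (f := c)
    rwa [Finset.card_range] at this
  have hsub := Finset.le_card_sdiff ((range k).image c) (nc G c J)
  have hmain : ∑ t ∈ J, a t + k ≤ (nc G c J).card := by
    have hmem : ∀ t ∈ J, t = K ∨ t ∈ J1 ∪ E1 ∨ t ∈ J2 ∪ E2 := by
      intro t ht
      have h1 := Finset.mem_range.1 (hJ ht)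
      rcases Nat.lt_trichotomy t K with h2 | h2 | h2
      · right
        rcases Finset.mem_union.1 (hT.uni.symm ▸ Finset.mem_range.2 h2) with h3 | h3
        · exact Or.inl (Finset.mem_union_left _ h3)
        · exact Or.inr (Finset.mem_union_left _ h3)
      · exact Or.inl h2
      · right
        by_cases h3 : t ∈ E1
        · exact Or.inl (Finset.mem_union_right _ h3)
        · exact Or.inr (Finset.mem_union_right _
            (Finset.mem_sdiff.2 ⟨Finset.mem_Ico.2 ⟨h2, h1⟩, h3⟩))
    by_cases hA : ∃ t ∈ J, t ∈ J1 ∪ E1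
    · obtain ⟨t, htJ, ht1⟩ := hA
      by_cases hB : ∃ s ∈ J, s ∈ J2 ∪ E2
      · obtain ⟨s, hsJ, hs2⟩ := hB
        have h1 := (sd _ _ _ (hm1 t ht1)).1
        have h2 := (sd _ _ _ (hm2 s hs2)).1
        have h3 := Pool.Agent.SFG.CL1_.cover (dg G (c t)) (dg G (c s)) X0 M h1 h2
          (univ \ (nc G c J))
        have h4 : dg G (c t) ∩ (univ \ nc G c J) = ∅ := by
          ext w
          simp only [Finset.mem_inter, Finset.mem_sdiff, Finset.mem_univ, true_and,
            Finset.notMem_empty, iff_false, not_and, not_not]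
          exact fun hw => mem_nc.2 ⟨t, htJ, hw⟩
        have h5 : dg G (c s) ∩ (univ \ nc G c J) = ∅ := by
          ext w
          simp only [Finset.mem_inter, Finset.mem_sdiff, Finset.mem_univ, true_and,
            Finset.notMem_empty, iff_false, not_and, not_not]
          exact fun hw => mem_nc.2 ⟨s, hsJ, hw⟩
        rw [h4, h5, Finset.card_empty] at h3
        have h7 : Fintype.card V ≤ (univ \ nc G c J).card + (nc G c J).card := by
          have := Finset.card_le_card_sdiff_add_card (s := (univ : Finset V)) (t := nc G c J)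
          rwa [Finset.card_univ] at this
        have h6 : ∑ t ∈ J, a t ≤ ∑ t ∈ range k, a t := Finset.sum_le_sum_of_subset hJ
        omega
      · have hs : J ⊆ insert K (J1 ∪ E1) := by
          intro s hs
          rcases hmem s hs with h | h | h
          · exact Finset.mem_insert.2 (Or.inl h)
          · exact Finset.mem_insert.2 (Or.inr h)
          · exact absurd ⟨s, hs, h⟩ hB
        exact side G a k K B M c u X0 J J1 E1 hcK hM hkB hT.lo1 hs hsE1.1 hsE1.2 t htJ
          (hm1 t ht1)
    · by_cases hB : ∃ s ∈ J, s ∈ J2 ∪ E2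
      · obtain ⟨s, hsJ, hs2⟩ := hB
        have hs : J ⊆ insert K (J2 ∪ E2) := by
          intro s hs
          rcases hmem s hs with h | h | h
          · exact Finset.mem_insert.2 (Or.inl h)
          · exact absurd ⟨s, hs, h⟩ hA
          · exact Finset.mem_insert.2 (Or.inr h)
        have h2 : dg G u ∩ X0 = dg G u \ X0ᶜ := by
          ext w
          simp only [Finset.mem_inter, Finset.mem_sdiff, Finset.mem_compl, not_not]
        have h3 := hsE2.2
        rw [hd1e, h2] at h3
        exact side G a k K B M c u X0ᶜ J J2 E2 hcK hM hkB hT.lo2 hs hsE2.1 h3 s hsJ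
          (hm2 s hs2)
      · have hJK : ∀ t ∈ J, t = K := by
          intro t ht
          rcases hmem t ht with h | h | h
          · exact h
          · exact absurd ⟨t, ht, h⟩ hA
          · exact absurd ⟨t, ht, h⟩ hB
        have hJ0 : J = {K} := by
          obtain ⟨t, ht⟩ := hJne
          ext s
          rw [Finset.mem_singleton]
          constructor
          · exact hJK s
          · rintro rfl
            exact hJK t ht ▸ ht
        have h1 : dg G u ⊆ nc G c J := by
          intro w hw
          exact mem_nc.2 ⟨K, by rw [hJ0]; exact Finset.mem_singleton_self K,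
            by rw [hcK]; exact hw⟩
        have h2 := Finset.card_le_card h1
        rw [hJ0, Finset.sum_singleton]
        rw [hJ0] at h2
        omega
  omega

end Pool.Agent.SFJ
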