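import Pool.Agent.SFJ.Targets

/-!
# SFJ: proof of the target COL (one colour)
-/

set_option autoImplicit false

open Finset

namespace Pool.Agent.SFJ

open Pool.Agent.StarF (starForest ramsey)
open Pool.Agent.SFB (Con dg nc Two)
open Pool.Agent.SFG (Cov Vio Sys Out Typ Tig pf PF)

open Pool.Agent.SFH (HS T_NKB T_VIO T_TYZ T_STR)

namespace COL_

lemma deg {V : Type} [Fintype V] [DecidableEq V] {G : SimpleGraph V} {a : ℕ → ℕ} {f i : ℕ}
    {c : ℕ → V} (h : HS G a f i c) {t : ℕ} (ht : t < i) : a t + f ≤ (dg G (c t)).card := by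
  have h1 := h.hal {t} (singleton_subset_iff.2 (mem_range.2 ht)) (singleton_nonempty t)
  rw [sum_singleton] at h1
  have h2 : nc G c {t} = dg G (c t) := by
    unfold nc
    rw [singleton_biUnion]
  rwa [h2] at h1

end COL_

open COL_ in
theorem p_COL (hVIO : T_VIO) (hNKB : T_NKB) (hSMA : Pool.Agent.SFG.T_SMA)
    (hSMB : Pool.Agent.SFG.T_SMB) (hTYZ : T_TYZ) (hSTR : T_STR) : T_COL := by
  intro V _ _ G Y X L P a k K q e f z Q c hP hkz hzf hfe hgz hQ1 hNQ hBe hcov hX hK hHS hmax hcY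
    hF1 hF2
  have hk2 := hP.k2
  have hq1 := hP.q1
  obtain ⟨M, hM⟩ : ∃ M, Q * (6 * k + 2 + z) = M := ⟨_, rfl⟩
  obtain ⟨B, hB⟩ : ∃ B, BJ k q Q z = B := ⟨_, rfl⟩
  have hB1 : 16 * (M + (6 * k + 2) + 1) * (q + 1) = B := by
    rw [← hB, ← hM]
    rfl
  have hB2 : 32 * (M + (6 * k + 2) + 1) ≤ B := by
    rw [← hB1]
    calc 32 * (M + (6 * k + 2) + 1) = 16 * (M + (6 * k + 2) + 1) * 2 := by ring
      _ ≤ 16 * (M + (6 * k + 2) + 1) * (q + 1) := Nat.mul_le_mul_left _ (by omega)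
  have hzM : 6 * k + 2 + z ≤ M := by
    rw [← hM]
    calc 6 * k + 2 + z = 1 * (6 * k + 2 + z) := by ring
      _ ≤ Q * (6 * k + 2 + z) := Nat.mul_le_mul_right _ hQ1
  rw [hB] at hBe hF1 hF2 ⊢
  have hN := hNKB V G Y X L P a f z K (6 * k + 2) c hcov hX hHS hzf hmax hcY
  have hK1 : 1 ≤ K := by
    by_contra hcon
    have hK0 : K = 0 := by omega
    subst hK0
    have h1 := hP.tw
    rw [range_zero, sum_empty] at hN
    omega
  have hNB : Fintype.card V ≤ ∑ t ∈ range K, a t + 2 * a K + B := by omega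
  have hcrit := (hP.crit hK hNB).1
  have haK : 7 * e ≤ a K := by omega
  have hlo := hP.lo K hK
  have ha : ∀ t < K, a K ≤ a t := fun t ht => hP.anti t K ht.le hK
  have ha0 : f ≤ a 0 := by
    have h1 := ha 0 hK1
    omega
  have hvio : ∀ v ∈ Y, ∃ J, Vio G a z K c v J := by
    intro v hv
    refine hVIO V G a f z K c v hHS hzf hK1 hmax ?_
    intro hv2
    obtain ⟨t, ht, htv⟩ := Finset.mem_image.1 hv2
    exact hcY t (Finset.mem_range.1 ht) (htv ▸ hv)
  choose! J hJ using hvio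
  have hA := hSMA V G Y X L P a z K Q f (6 * k + 2) c J hcov hX (by omega) hJ hHS.hal hlo hNQ
  have hBB := hSMB V G Y X L P a z K Q f (6 * k + 2) c J hcov hX (by omega) hJ hHS.hal hlo hNQ
    hK1 ha0
  have hcast : (Q : ℝ) * (((6 * k + 2 : ℕ) : ℝ) + (z : ℝ)) ≤ ((M : ℕ) : ℝ) := by
    rw [← hM]
    push_cast
    exact le_rfl
  obtain ⟨⟨v1, hv1Y, -, hv1a, hv1b⟩, v2, hv2Y, -, hv2a, hv2b⟩ :=
    hTYZ V G Y X L P a z K (6 * k + 2) M q e c J hcov hX hJ (hHS.top hK1)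
      (by
        have h1 := deg hHS (t := 0) hK1
        have h2 := ha 0 hK1
        omega)
      (by omega) hP.up hq1 (by omega) (hA.trans hcast) (hBB.trans hcast)
  rw [hB1] at hv1a hv1b hv2a hv2b
  have hT1 : k + 2 ≤ (univ.filter (fun v => (symmDiff (dg G v) (dg G (c 0))).card ≤
      B)).card := by
    by_contra hcon
    have h1 := hF1 (by omega) v1 hv1Y
    omega
  have hT2 : k + 2 ≤ (univ.filter (fun v => (symmDiff (dg G v) (dg G (c 0))ᶜ).card ≤
      B)).card := by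
    by_contra hcon
    have h1 := hF2 (by omega) v2 hv2Y
    omega
  refine ⟨hK1, hNB, J v1, J v2, hSTR V G a k z K B c v1 v2 (J v1) (J v2) ha hlo
    (by omega) (by omega) ?_ (hJ v1 hv1Y) (hJ v2 hv2Y) hv1a hv1b hv2a hv2b hT1 hT2⟩
  intro t ht
  have h1 := deg hHS ht
  have h2 := ha t ht
  omega

end Pool.Agent.SFJ
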