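import Pool.Agent.SFJ.Targets

/-!
# SFJ: proof of the target PGH (two levels)
-/

set_option autoImplicit false

open Finset

namespace Pool.Agent.SFJ

namespace PGH_

/-- Induction on the sum of the two values. -/
lemma main (k C : ℕ) (κ κ' : ℕ → ℕ) (hk : 1 ≤ k) (hC : 1 ≤ C)
    (h1 : ∀ f f', f ≤ f' → κ f' ≤ κ f) (h2 : ∀ f f', f ≤ f' → κ' f' ≤ κ' f) :
    ∀ m z0 : ℕ, k ≤ z0 → κ z0 + κ' z0 ≤ m →
      ∃ f z, k ≤ z ∧ C * (z + 6 * k + 3) ≤ f ∧ f ≤ z0 * (C * (6 * k + 4)) ^ (m + 1) ∧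
        κ f = κ z ∧ κ' f = κ' z := by
  intro m
  induction m with
  | zero =>
    intro z0 hz hs
    have hle : z0 ≤ C * (z0 + 6 * k + 3) := by
      calc z0 ≤ z0 + 6 * k + 3 := by omega
        _ = 1 * (z0 + 6 * k + 3) := by ring
        _ ≤ C * (z0 + 6 * k + 3) := Nat.mul_le_mul_right _ hC
    have e1 := h1 _ _ hle
    have e2 := h2 _ _ hle
    refine ⟨C * (z0 + 6 * k + 3), z0, hz, le_rfl, ?_, by omega, by omega⟩
    have h3 : z0 + 6 * k + 3 ≤ z0 * (6 * k + 4) := by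
      have : 1 ≤ z0 := by omega
      nlinarith
    calc C * (z0 + 6 * k + 3) ≤ C * (z0 * (6 * k + 4)) := Nat.mul_le_mul_left _ h3
      _ = z0 * (C * (6 * k + 4)) ^ (0 + 1) := by ring
  | succ m ih =>
    intro z0 hz hs
    have hle : z0 ≤ C * (z0 + 6 * k + 3) := by
      calc z0 ≤ z0 + 6 * k + 3 := by omega
        _ = 1 * (z0 + 6 * k + 3) := by ring
        _ ≤ C * (z0 + 6 * k + 3) := Nat.mul_le_mul_right _ hC
    have h3 : z0 + 6 * k + 3 ≤ z0 * (6 * k + 4) := by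
      have : 1 ≤ z0 := by omega
      nlinarith
    have h4 : C * (z0 + 6 * k + 3) ≤ z0 * (C * (6 * k + 4)) := by
      calc C * (z0 + 6 * k + 3) ≤ C * (z0 * (6 * k + 4)) := Nat.mul_le_mul_left _ h3
        _ = z0 * (C * (6 * k + 4)) := by ring
    have hD : 1 ≤ C * (6 * k + 4) := Nat.mul_pos hC (by omega)
    have e1 := h1 _ _ hle
    have e2 := h2 _ _ hle
    by_cases hcase : κ (C * (z0 + 6 * k + 3)) = κ z0 ∧ κ' (C * (z0 + 6 * k + 3)) = κ' z0
    · refine ⟨C * (z0 + 6 * k + 3), z0, hz, le_rfl, ?_, hcase.1, hcase.2⟩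
      refine h4.trans (Nat.mul_le_mul_left _ ?_)
      calc C * (6 * k + 4) = (C * (6 * k + 4)) ^ 1 := (pow_one _).symm
        _ ≤ (C * (6 * k + 4)) ^ (m + 1 + 1) := Nat.pow_le_pow_right hD (by omega)
    · obtain ⟨f, z, hz', hf, hfu, hκ, hκ'⟩ := ih (C * (z0 + 6 * k + 3)) (by omega) (by omega)
      refine ⟨f, z, hz', hf, hfu.trans ?_, hκ, hκ'⟩
      calc C * (z0 + 6 * k + 3) * (C * (6 * k + 4)) ^ (m + 1)
          ≤ z0 * (C * (6 * k + 4)) * (C * (6 * k + 4)) ^ (m + 1) := Nat.mul_le_mul_right _ h4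
        _ = z0 * (C * (6 * k + 4)) ^ (m + 1 + 1) := by ring

end PGH_

open PGH_ in
theorem p_PGH : T_PGH := by
  intro k C κ κ' hk hC hb hb' h1 h2
  have e1 := hb k
  have e2 := hb' k
  exact main k C κ κ' hk hC h1 h2 (2 * k) k le_rfl (by omega)

end Pool.Agent.SFJ
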