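import Pool.Agent.SFJ.Targets

set_option autoImplicit false

/-!
# SFJ: STC, the structure for maximal systems (adapted from Pool/Agent/SFG/P_STC.lean)
-/

open Finset

namespace Pool.Agent.SFJ

open Pool.Agent.StarF (starForest ramsey)
open Pool.Agent.SFB (Con dg nc Two)
open Pool.Agent.SFG (Cov Vio Sys Out Typ Tig pf PF)

open Pool.Agent.SFH (HS)

namespace STC_

/-- One of the two blocks has more than `a 0 + 5 e` elements. -/
theorem size {V : Type} [Fintype V] [DecidableEq V] (G : SimpleGraph V) (a : ℕ → ℕ)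
    (k K e B l : ℕ) (X X0 : Finset V) (J1 J2 : Finset ℕ)
    (hK1 : 1 ≤ K) (haK : 7 * e ≤ a K)
    (hB : 3 * B + l + 1 ≤ e) (hT : Typ G a k K B B X0 J1 J2)
    (hX : Two G X l ∨ Two Gᶜ X l) :
    a 0 + 5 * e ≤ X.card ∨ a 0 + 5 * e ≤ (Xᶜ).card := by
  classical
  have hne : (univ.filter (fun v => (symmDiff (dg G v) X0).card ≤ B)).Nonempty := by
    rw [← card_pos]
    have := hT.T1
    omega
  obtain ⟨v, hv⟩ := hne
  rw [mem_filter] at hv
  have hv1 := hv.2
  -- `dg v` is close to one of the blocks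
  have h1 : (symmDiff (dg G v) X).card ≤ l + 1 ∨ (symmDiff (dg G v) Xᶜ).card ≤ l + 1 := by
    have hc : ∀ Y : Finset V, symmDiff (dg G v) Yᶜ ⊆ symmDiff (dg Gᶜ v) Y ∪ {v} := by
      intro Y w hw
      rw [mem_symmDiff] at hw
      rw [mem_union, mem_symmDiff, mem_singleton, Pool.Agent.SFB.mem_dg_compl]
      rw [mem_compl] at hw
      by_cases hwv : w = v
      · exact Or.inr hwv
      · left
        tauto
    have hc2 : ∀ Y : Finset V, (symmDiff (dg G v) Yᶜ).card ≤ (symmDiff (dg Gᶜ v) Y).card + 1 := by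
      intro Y
      refine (card_le_card (hc Y)).trans ((card_union_le _ _).trans ?_)
      rw [card_singleton]
    rcases hX with hX | hX
    · by_cases hvX : v ∈ X
      · exact Or.inl ((hX.inn v hvX).trans (by omega))
      · exact Or.inr ((hX.out v hvX).trans (by omega))
    · by_cases hvX : v ∈ X
      · right
        have := hX.inn v hvX
        have := hc2 X
        omega
      · left
        have h2 := hX.out v hvX
        have h3 := hc2 Xᶜ
        rw [compl_compl] at h3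
        omega
  have key : ∀ Y : Finset V, (symmDiff (dg G v) Y).card ≤ l + 1 →
      X0.card ≤ Y.card + (l + 1 + B) ∧ (X0ᶜ).card ≤ (Yᶜ).card + (l + 1 + B) := by
    intro Y hY
    have h2 : (symmDiff X0 Y).card ≤ l + 1 + B := by
      have h3 : symmDiff X0 Y ⊆ symmDiff (dg G v) Y ∪ symmDiff (dg G v) X0 := by
        intro w hw
        rw [mem_symmDiff] at hw
        rw [mem_union, mem_symmDiff, mem_symmDiff]
        tauto
      have h4 := (card_le_card h3).trans (card_union_le _ _)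
      omega
    constructor
    · have h3 : X0 ⊆ Y ∪ symmDiff X0 Y := by
        intro w hw
        rw [mem_union, mem_symmDiff]
        tauto
      have h4 := (card_le_card h3).trans (card_union_le _ _)
      omega
    · have h3 : X0ᶜ ⊆ Yᶜ ∪ symmDiff X0 Y := by
        intro w hw
        rw [mem_compl] at hw
        rw [mem_union, mem_symmDiff, mem_compl]
        tauto
      have h4 := (card_le_card h3).trans (card_union_le _ _)
      omega
  have h0 : a 0 + 7 * e ≤ X0.card + 2 * B ∨ a 0 + 7 * e ≤ (X0ᶜ).card + 2 * B := by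
    have h2 : (0 : ℕ) ∈ J1 ∪ J2 := by
      rw [hT.uni]
      exact mem_range.2 (by omega)
    rcases mem_union.1 h2 with h3 | h3
    · left
      have h4 := single_le_sum (f := a) (fun i _ => Nat.zero_le _) h3
      have h5 := hT.lo1
      omega
    · right
      have h4 := single_le_sum (f := a) (fun i _ => Nat.zero_le _) h3
      have h5 := hT.lo2
      omega
  rcases h1 with h1 | h1
  · obtain ⟨h2, h3⟩ := key X h1
    omega
  · obtain ⟨h2, h3⟩ := key Xᶜ h1
    rw [compl_compl] at h3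
    omega



/-- the set `F` if it is small, otherwise the empty set -/
def sm {V : Type} [DecidableEq V] (F : Finset V) (n : ℕ) : Finset V :=
  if F.card ≤ n then F else ∅

theorem sm_card {V : Type} [DecidableEq V] (F : Finset V) (n : ℕ) : (sm F n).card ≤ n := by
  unfold sm
  split_ifs with h
  · exact h
  · simp

theorem sm_mem {V : Type} [DecidableEq V] {F : Finset V} {n : ℕ} (h : F.card ≤ n) {v : V}
    (hv : v ∈ F) : v ∈ sm F n := by
  unfold sm
  rw [if_pos h]
  exact hv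

/-- the final step -/
theorem fin (hTYC : Pool.Agent.SFG.T_TYC) (hCLT : T_CLT) (hCL2 : Pool.Agent.SFB.T_CL2)
    (hBLK : Pool.Agent.SFB.T_BLK) {V : Type} [Fintype V]
    [DecidableEq V] (G : SimpleGraph V) (a : ℕ → ℕ) (k K q e B W : ℕ) (X0 : Finset V)
    (J1 J2 : Finset ℕ) (hP : Par a k q e (Fintype.card V)) (hK1 : 1 ≤ K) (hKk : K < k)
    (hkB : k ≤ B) (hW : 2 ^ k * B = W) (hBW : B ≤ W) (hWe : 312500 * W ≤ e)
    (hN : Fintype.card V ≤ ∑ t ∈ range K, a t + 2 * a K + B) (h1 : ¬ Con G k a)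
    (h2 : ¬ Con Gᶜ k a) (hT : Typ G a k K B B X0 J1 J2) :
    ∃ X : Finset V, (Two G X (1600 * W + 1) ∨ Two Gᶜ X (1600 * W + 1)) ∧
    6 * e ≤ X.card ∧ 6 * e ≤ (Xᶜ).card ∧
    (a 0 + 5 * e ≤ X.card ∨ a 0 + 5 * e ≤ (Xᶜ).card) := by
  have hT' := hTYC V G a k K B X0 J1 J2 hT
  have hk := hP.k2
  have q1 : 1000 * 2 ^ k * B = 1000 * W := by rw [← hW]; ring
  have q2 : 16 * 2 ^ k * B = 16 * W := by rw [← hW]; ring
  have c1 := hCLT V G a k K q e B B X0 J1 J2 hP hK1 hKk hkB (by omega) hN (by omega) h1 hT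
  have c2 := hCLT V Gᶜ a k K q e B (B + 1) X0 J1 J2 hP hK1 hKk hkB (by omega) hN le_rfl h2 hT'
  rw [q2] at c1 c2
  have hcr := (hP.crit hKk hN).1
  have hlo := hP.lo K hKk
  have ha0 : a K ≤ ∑ t ∈ range K, a t := by
    refine (hP.anti 0 K (Nat.zero_le _) hKk).trans ?_
    exact single_le_sum (f := a) (fun i _ => Nat.zero_le _) (mem_range.2 (by omega : 0 < K))
  have lo1 := hT.lo1
  have lo2 := hT.lo2
  have c3 := hCL2 V G (16 * W) (16 * W) (a K) X0 (by omega) (by omega) (by omega) (by omega)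
    (by omega) (by omega)
  have c4 : ∀ u, (symmDiff (dg G u) X0).card ≤ 20 * (16 * W) ∨
      (symmDiff (dg G u) X0ᶜ).card ≤ 20 * (16 * W) := by
    intro u
    have d1 := c1 u
    have d2 := c2 u
    exact c3 u (by omega) (by omega)
  obtain ⟨X, hX, hb1, hb2⟩ := hBLK V G (a K - 2 * B) (20 * (16 * W)) X0 (by omega) (by omega)
    (by omega) c4
  have hX' : Two G X (1600 * W + 1) ∨ Two Gᶜ X (1600 * W + 1) := by
    rcases hX with hX | hX
    · exact Or.inl (hX.mono (by omega))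
    · exact Or.inr (hX.mono (by omega))
  exact ⟨X, hX', by omega, by omega, size G a k K e B (1600 * W + 1) X X0 J1 J2 hK1
    (by omega) (by omega) hT hX'⟩

/-- The error is small. -/
theorem small (k q e f z N : ℕ) (hN : N ≤ q * e) (hg : CC k q * (z + 6 * k + 3) ≤ f)
    (hfe : f ≤ e) (hf : 0 < f) : 312500 * (2 ^ k * BJ k q (N / f + 1) z) ≤ e := by
  obtain ⟨s, hs⟩ : ∃ s, z + 6 * k + 3 = s := ⟨_, rfl⟩
  rw [hs] at hg
  have hs1 : 1 ≤ s := by omega
  -- `C (Q s) ≤ (q + 1) e`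
  have h1 : CC k q * ((N / f + 1) * s) ≤ (q + 1) * e := by
    calc CC k q * ((N / f + 1) * s) = (N / f + 1) * (CC k q * s) := by ring
      _ ≤ (N / f + 1) * f := Nat.mul_le_mul_left _ hg
      _ = N / f * f + f := by ring
      _ ≤ q * e + e := Nat.add_le_add ((Nat.div_mul_le_self N f).trans hN) hfe
      _ = (q + 1) * e := by ring
  have h2 : BJ k q (N / f + 1) z ≤ 32 * ((N / f + 1) * s) * (q + 1) := by
    unfold BJ
    refine Nat.mul_le_mul_right _ ?_
    have h3 : (N / f + 1) * (6 * k + 2 + z) ≤ (N / f + 1) * s := Nat.mul_le_mul_left _ (by omega)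
    have h4 : s ≤ (N / f + 1) * s := Nat.le_mul_of_pos_left _ (Nat.succ_pos _)
    omega
  have h5 : 1000000000 * 2 ^ k * (q + 1) ^ 2 * ((N / f + 1) * s) ≤ (q + 1) * e := h1
  have h6 : (q + 1) * (312500 * (2 ^ k * BJ k q (N / f + 1) z)) ≤ (q + 1) * e := by
    calc (q + 1) * (312500 * (2 ^ k * BJ k q (N / f + 1) z))
        ≤ (q + 1) * (312500 * (2 ^ k * (32 * ((N / f + 1) * s) * (q + 1)))) :=
          Nat.mul_le_mul_left _ (Nat.mul_le_mul_left _ (Nat.mul_le_mul_left _ h2))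
      _ = 10000000 * (2 ^ k * (q + 1) ^ 2 * ((N / f + 1) * s)) := by ring
      _ ≤ 1000000000 * (2 ^ k * (q + 1) ^ 2 * ((N / f + 1) * s)) :=
          Nat.mul_le_mul_right _ (by norm_num)
      _ = 1000000000 * 2 ^ k * (q + 1) ^ 2 * ((N / f + 1) * s) := by ring
      _ ≤ (q + 1) * e := h5
  exact Nat.le_of_mul_le_mul_left h6 (by omega)

/-- the largest length of a system with surplus `f` -/
noncomputable def kap {V : Type} [Fintype V] [DecidableEq V] (G : SimpleGraph V) (a : ℕ → ℕ)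
    (k f : ℕ) : ℕ := by
  classical
  exact Nat.findGreatest (fun i => ∃ c, HS G a f i c) k

theorem kap_le {V : Type} [Fintype V] [DecidableEq V] (G : SimpleGraph V) (a : ℕ → ℕ)
    (k f : ℕ) : kap G a k f ≤ k := by
  classical
  unfold kap
  exact Nat.findGreatest_le k

theorem kap_anti {V : Type} [Fintype V] [DecidableEq V] (G : SimpleGraph V) (a : ℕ → ℕ)
    (k f f' : ℕ) (h : f ≤ f') : kap G a k f' ≤ kap G a k f := by
  classical
  unfold kap
  refine Nat.findGreatest_mono_left ?_ k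
  rintro i ⟨c, hc⟩
  exact ⟨c, hc.mono h⟩

theorem kap_ex {V : Type} [Fintype V] [DecidableEq V] [Nonempty V] (G : SimpleGraph V)
    (a : ℕ → ℕ) (k f : ℕ) : ∃ c, HS G a f (kap G a k f) c := by
  classical
  unfold kap
  refine Nat.findGreatest_spec (P := fun i => ∃ c, HS G a f i c) (Nat.zero_le k) ?_
  refine ⟨fun _ => Classical.arbitrary V, ?_, ?_, ?_⟩
  · intro x hx
    simp at hx
  · intro J hJ hne
    rw [range_zero, subset_empty] at hJ
    rw [hJ] at hne
    simp at hne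
  · intro h
    exact absurd h (lt_irrefl 0)

theorem kap_max {V : Type} [Fintype V] [DecidableEq V] (G : SimpleGraph V)
    (a : ℕ → ℕ) (k f : ℕ) (h : kap G a k f < k) :
    ¬ ∃ c, HS G a f (kap G a k f + 1) c := by
  classical
  have h1 := Nat.findGreatest_is_greatest (P := fun i => ∃ c, HS G a f i c) (n := k)
    (k := kap G a k f + 1) (by
      unfold kap
      exact Nat.lt_succ_self _) (by omega)
  exact h1

theorem kap_lt (hEMB : Pool.Agent.SFB.T_EMB) {V : Type} [Fintype V] [DecidableEq V] [Nonempty V]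
    (G : SimpleGraph V) (a : ℕ → ℕ) (k z : ℕ) (hkz : k ≤ z) (h : ¬ Con G k a) :
    kap G a k z < k := by
  by_contra hcon
  have h0 : kap G a k z = k := le_antisymm (kap_le G a k z) (not_lt.1 hcon)
  obtain ⟨c, hc⟩ := kap_ex G a k z
  rw [h0] at hc
  refine h (hEMB V G k a c hc.inj ?_)
  intro J hJ hne
  have h1 := hc.hal J hJ hne
  have h2 : ((range k).image c).card ≤ k := card_image_le.trans (by rw [card_range])
  have h3 := le_card_sdiff ((range k).image c) (nc G c J)
  omega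

end STC_

open STC_ in
theorem p_STC (hMMX : Pool.Agent.SFG.T_MMX) (hPGH : T_PGH) (hCOL : T_COL)
    (hTYC : Pool.Agent.SFG.T_TYC) (hCLT : T_CLT) (hCL2 : Pool.Agent.SFB.T_CL2)
    (hBLK : Pool.Agent.SFB.T_BLK) (hEMB : Pool.Agent.SFB.T_EMB) : T_STC := by
  intro k q hk hq
  refine ⟨ZZ k q + 100000000 * 2 ^ k * (q + 1) * (ZZ k q + 6 * k + 3), ?_⟩
  intro V _ _ G a e hEe hP h1 h2
  have hek := hP.ek
  have hall := hP.all
  have : Nonempty V := Fintype.card_pos_iff.1 (by omega)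
  have hCC : 1 ≤ CC k q := by
    unfold CC
    exact Nat.mul_pos (Nat.mul_pos (by norm_num) (by positivity)) (by positivity)
  obtain ⟨f, z, hkz, hgap, hfZ, hκ, hκ'⟩ := hPGH k (CC k q) (kap G a k) (kap Gᶜ a k) (by omega)
    hCC (kap_le G a k) (kap_le Gᶜ a k) (fun f f' h => kap_anti G a k f f' h)
    (fun f f' h => kap_anti Gᶜ a k f f' h)
  have hfZ' : f ≤ ZZ k q := hfZ
  have hzf : z ≤ f := by
    have h3 : z + 6 * k + 3 ≤ CC k q * (z + 6 * k + 3) := Nat.le_mul_of_pos_left _ hCC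
    omega
  have hfe : f ≤ e := hfZ'.trans ((Nat.le_add_right _ _).trans hEe)
  obtain ⟨Q, hQ⟩ : ∃ Q, Fintype.card V / f + 1 = Q := ⟨_, rfl⟩
  have hf0 : 0 < f := by omega
  have hQ1 : 1 ≤ Q := by
    rw [← hQ]
    exact Nat.le_add_left _ _
  have hNQ : Fintype.card V ≤ Q * f := by
    rw [← hQ]
    have h3 := Nat.div_add_mod (Fintype.card V) f
    have h4 := Nat.mod_lt (Fintype.card V) hf0
    have h5 : (Fintype.card V / f + 1) * f = f * (Fintype.card V / f) + f := by ring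
    omega
  have hgz : 2 * z + 6 * k + 4 ≤ gg k q := by
    unfold gg
    omega
  have hK := kap_lt hEMB G a k z hkz h1
  have hK' := kap_lt hEMB Gᶜ a k z hkz h2
  have hmax := kap_max G a k z hK
  have hmax' := kap_max Gᶜ a k z hK'
  obtain ⟨c, hC⟩ := kap_ex G a k f
  obtain ⟨c', hC'⟩ := kap_ex Gᶜ a k f
  rw [hκ] at hC
  rw [hκ'] at hC'
  obtain ⟨i, hi⟩ : ∃ i, kap G a k z = i := ⟨_, rfl⟩
  obtain ⟨i', hi'⟩ : ∃ i', kap Gᶜ a k z = i' := ⟨_, rfl⟩
  rw [hi] at hK hmax hC
  rw [hi'] at hK' hmax' hC'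
  obtain ⟨B, hB⟩ : ∃ B, BJ k q Q z = B := ⟨_, rfl⟩
  have hW : 312500 * (2 ^ k * B) ≤ e := by
    rw [← hB, ← hQ]
    exact small k q e f z (Fintype.card V) hP.up hgap hfe hf0
  have hkB : k ≤ B := by
    rw [← hB]
    unfold BJ
    calc k ≤ 1 * (1 * (6 * k + 2 + z)) * 1 := by omega
      _ ≤ 16 * (Q * (6 * k + 2 + z) + (6 * k + 2) + 1) * (q + 1) :=
        Nat.mul_le_mul (Nat.mul_le_mul (by norm_num)
          ((Nat.mul_le_mul_right _ hQ1).trans (by omega))) (by omega)
  have hBW : B ≤ 2 ^ k * B := Nat.le_mul_of_pos_left B (by positivity)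
  obtain ⟨W, hWW⟩ : ∃ W, 2 ^ k * B = W := ⟨_, rfl⟩
  rw [hWW] at hW hBW
  have hWe : 312500 * W ≤ e := hW
  have hBe : 1000 * BJ k q Q z ≤ e := by
    rw [hB]
    omega
  obtain ⟨F1, hF1⟩ : ∃ F : Finset V,
      F = univ.filter (fun v => (symmDiff (dg G v) (dg G (c 0))).card ≤ B) := ⟨_, rfl⟩
  obtain ⟨F2, hF2⟩ : ∃ F : Finset V,
      F = univ.filter (fun v => (symmDiff (dg G v) (dg G (c 0))ᶜ).card ≤ B) := ⟨_, rfl⟩
  obtain ⟨F3, hF3⟩ : ∃ F : Finset V,
      F = univ.filter (fun v => (symmDiff (dg Gᶜ v) (dg Gᶜ (c' 0))).card ≤ B) := ⟨_, rfl⟩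
  obtain ⟨F4, hF4⟩ : ∃ F : Finset V,
      F = univ.filter (fun v => (symmDiff (dg Gᶜ v) (dg Gᶜ (c' 0))ᶜ).card ≤ B) :=
    ⟨_, rfl⟩
  obtain ⟨R, hR⟩ : ∃ R : Finset V, R = (((((range i).image c ∪ (range i').image c') ∪
      sm F1 (k + 1)) ∪ sm F2 (k + 1)) ∪ sm F3 (k + 1)) ∪ sm F4 (k + 1) := ⟨_, rfl⟩
  have hRc : R.card ≤ 6 * k + 2 := by
    rw [hR]
    have e1 := card_union_le (((((range i).image c ∪ (range i').image c') ∪
      sm F1 (k + 1)) ∪ sm F2 (k + 1)) ∪ sm F3 (k + 1)) (sm F4 (k + 1))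
    have e2 := card_union_le ((((range i).image c ∪ (range i').image c') ∪
      sm F1 (k + 1)) ∪ sm F2 (k + 1)) (sm F3 (k + 1))
    have e3 := card_union_le (((range i).image c ∪ (range i').image c') ∪
      sm F1 (k + 1)) (sm F2 (k + 1))
    have e4 := card_union_le ((range i).image c ∪ (range i').image c') (sm F1 (k + 1))
    have e5 := card_union_le ((range i).image c) ((range i').image c')
    have e6 : ((range i).image c).card ≤ i := card_image_le.trans (by rw [card_range])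
    have e7 : ((range i').image c').card ≤ i' := card_image_le.trans (by rw [card_range])
    have s1 := sm_card F1 (k + 1)
    have s2 := sm_card F2 (k + 1)
    have s3 := sm_card F3 (k + 1)
    have s4 := sm_card F4 (k + 1)
    omega
  have hcR : ∀ t < i, c t ∈ R := by
    intro t ht
    rw [hR]
    have : c t ∈ (range i).image c := mem_image_of_mem _ (mem_range.2 ht)
    simp only [mem_union]
    tauto
  have hcR' : ∀ t < i', c' t ∈ R := by
    intro t ht
    rw [hR]
    have : c' t ∈ (range i').image c' := mem_image_of_mem _ (mem_range.2 ht)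
    simp only [mem_union]
    tauto
  have hF : ∀ v, (v ∈ sm F1 (k + 1) ∨ v ∈ sm F2 (k + 1) ∨ v ∈ sm F3 (k + 1) ∨
      v ∈ sm F4 (k + 1)) → v ∈ R := by
    intro v hv
    rw [hR]
    simp only [mem_union]
    tauto
  have hYc : 1 ≤ (Rᶜ).card := by
    rw [card_compl]
    omega
  obtain ⟨X, hXY, hXc, hCovs⟩ := hMMX V G (Rᶜ) 1 le_rfl hYc
  have hXe : Rᶜ ⊆ X := by
    rw [Nat.lt_one_iff, card_eq_zero, sdiff_eq_empty_iff_subset] at hXc
    exact hXc
  have hX9 : (Xᶜ).card ≤ 6 * k + 2 := by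
    refine (card_le_card ?_).trans hRc
    intro v hv
    rw [mem_compl] at hv
    by_contra hcon
    exact hv (hXe (mem_compl.2 hcon))
  have hnot : ∀ t < i, c t ∉ Rᶜ := fun t ht h => (mem_compl.1 h) (hcR t ht)
  have hnot' : ∀ t < i', c' t ∉ Rᶜ := fun t ht h => (mem_compl.1 h) (hcR' t ht)
  have key : ∃ X : Finset V, (Two G X (1600 * W + 1) ∨ Two Gᶜ X (1600 * W + 1)) ∧
      6 * e ≤ X.card ∧ 6 * e ≤ (Xᶜ).card ∧
      (a 0 + 5 * e ≤ X.card ∨ a 0 + 5 * e ≤ (Xᶜ).card) := by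
    rcases hCovs with ⟨P, hCov⟩ | ⟨P, hCov⟩
    · obtain ⟨hK1, hN, J1, J2, hT⟩ := hCOL V G (Rᶜ) X 1 P a k i q e f z Q c hP hkz hzf hfe hgz
        hQ1 hNQ hBe hCov hX9 hK hC hmax hnot
        (by
          rw [hB, ← hF1]
          intro hs v hv
          by_contra hcon
          have hv1 : v ∈ F1 := by
            rw [hF1, mem_filter]
            exact ⟨mem_univ _, not_lt.1 hcon⟩
          exact (mem_compl.1 hv) (hF v (Or.inl (sm_mem hs hv1))))
        (by
          rw [hB, ← hF2]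
          intro hs v hv
          by_contra hcon
          have hv1 : v ∈ F2 := by
            rw [hF2, mem_filter]
            exact ⟨mem_univ _, not_lt.1 hcon⟩
          exact (mem_compl.1 hv) (hF v (Or.inr (Or.inl (sm_mem hs hv1)))))
      rw [hB] at hN hT
      exact fin hTYC hCLT hCL2 hBLK G a k i q e B W _ J1 J2 hP hK1 hK hkB hWW hBW hWe hN h1 h2 hT
    · obtain ⟨hK1, hN, J1, J2, hT⟩ := hCOL V Gᶜ (Rᶜ) X 1 P a k i' q e f z Q c' hP hkz hzf hfe
        hgz hQ1 hNQ hBe hCov hX9 hK' hC' hmax' hnot'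
        (by
          rw [hB, ← hF3]
          intro hs v hv
          by_contra hcon
          have hv1 : v ∈ F3 := by
            rw [hF3, mem_filter]
            exact ⟨mem_univ _, not_lt.1 hcon⟩
          exact (mem_compl.1 hv) (hF v (Or.inr (Or.inr (Or.inl (sm_mem hs hv1))))))
        (by
          rw [hB, ← hF4]
          intro hs v hv
          by_contra hcon
          have hv1 : v ∈ F4 := by
            rw [hF4, mem_filter]
            exact ⟨mem_univ _, not_lt.1 hcon⟩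
          exact (mem_compl.1 hv) (hF v (Or.inr (Or.inr (Or.inr (sm_mem hs hv1))))))
      rw [hB] at hN hT
      have h4 : ¬ Con (Gᶜ)ᶜ k a := by rwa [compl_compl]
      obtain ⟨X, hX, hX1, hX2, hX3⟩ := fin hTYC hCLT hCL2 hBLK Gᶜ a k i' q e B W _ J1 J2 hP hK1 hK'
        hkB hWW hBW hWe hN h2 h4 hT
      rw [compl_compl] at hX
      exact ⟨X, hX.symm, hX1, hX2, hX3⟩
  obtain ⟨X', hX', hX1, hX2, hX3⟩ := key
  exact ⟨X', 1600 * W + 1, by omega, by omega, hX', hX1, hX2, hX3⟩

end Pool.Agent.SFJ
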