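import Pool.Agent.SFJ.Targets
import Pool.Agent.SFG.P_XUB

/-!
# SFJ-XUT: three stars, upper bound (MP_705b7e_co)
-/

set_option autoImplicit false

open Finset

namespace Pool.Agent.SFJ

open Pool.Agent.SFH (HS Sto T_THE T_PKE T_SLK T_VRG T_CMN T_PWB T_RFA T_RFB T_VIO T_NKB T_TYZ
  T_STR T_XLT)

open Pool.Agent.SFG (pf PF Gen Rel vv ww)

namespace XUT_

/-- The subsets of `range 2`. -/
theorem sub2 {P : Finset ℕ} (h : P ⊆ range 2) : P = ∅ ∨ P = {0} ∨ P = {1} ∨ P = {0, 1} := by
  have h1 : P ∈ (range 2).powerset := mem_powerset.2 h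
  have e : (range 2).powerset = {∅, {0}, {1}, {0, 1}} := by decide
  rw [e] at h1
  simpa only [mem_insert, mem_singleton] using h1

/-- The subsets of `range 1`. -/
theorem sub1 {P : Finset ℕ} (h : P ⊆ range 1) : P = ∅ ∨ P = {0} := by
  have h1 : P ∈ (range 1).powerset := mem_powerset.2 h
  have e : (range 1).powerset = {∅, {0}} := by decide
  rw [e] at h1
  simpa only [mem_insert, mem_singleton] using h1

end XUT_

open XUT_

theorem p_XUT (hYST : T_YST) : T_XUT := by
  intro a q e N h hN x y c hxy hc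
  by_contra hpf
  have hlo1 := h.lo 1 (by omega)
  have hlo2 := h.lo 2 (by omega)
  have h01 : a 1 ≤ a 0 := h.anti 0 1 (by omega) (by omega)
  have h12 : a 2 ≤ a 1 := h.anti 1 2 (by omega) (by omega)
  have hmin := h.min 2 (by omega)
  have hall := h.all
  have htwo := h.two
  have hbig := h.big
  simp only [sum_range_succ, range_zero, sum_empty, zero_add] at hlo1 hlo2 hall
  obtain ⟨K, P, hK1, hK, S, -⟩ := hYST a 3 q e N h x y c hxy hc hpf
  obtain ⟨f, hf, hf0, hf1⟩ : ∃ f : ℕ, N = a 0 + a 1 + 2 * a 2 + f ∧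
      (f = 0 → a 1 < a 0 ∧ a 0 < a 1 + a 2) ∧ a 0 + 2 * a 1 + 1 ≤ N := by
    refine ⟨N - (a 0 + a 1 + 2 * a 2), ?_, ?_, ?_⟩
    · have := le_max_right (a 0 + 2 * a 1 + 1)
        (a 0 + a 1 + 2 * a 2 + (if a 0 = a 1 ∨ a 1 + a 2 ≤ a 0 then 1 else 0))
      omega
    · intro h0
      have := le_max_right (a 0 + 2 * a 1 + 1)
        (a 0 + a 1 + 2 * a 2 + (if a 0 = a 1 ∨ a 1 + a 2 ≤ a 0 then 1 else 0))
      rw [← hN] at this
      split_ifs at this with h1
      · omega
      · omega
    · have := le_max_left (a 0 + 2 * a 1 + 1)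
        (a 0 + a 1 + 2 * a 2 + (if a 0 = a 1 ∨ a 1 + a 2 ≤ a 0 then 1 else 0))
      omega
  have hc1 : c ≤ 1 := by omega
  have hx0 := S.x0
  have hx1 := S.x1
  have hx2 := S.x2
  have hy1 := S.y1
  have hy2 := S.y2
  have hxc : x * c % 2 < 2 := Nat.mod_lt _ (by norm_num)
  obtain rfl | rfl : K = 1 ∨ K = 2 := by omega
  · rcases sub1 S.sub with rfl | rfl
    · simp only [sum_empty, card_empty, sdiff_empty, sum_range_succ, range_zero, zero_add,
        forall_true_left, Nat.sub_zero] at hx0 hx2 hy1 hy2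
      have e1 : (1 + 1) * c = 2 * c := by ring
      rw [e1] at hy2
      omega
    · have e1 : range 1 \ {0} = ∅ := by decide
      rw [e1] at hy1 hy2
      simp only [sum_empty, card_singleton, sum_singleton] at hx1 hx2 hy1 hy2
      omega
  · rcases sub2 S.sub with rfl | rfl | rfl | rfl
    · simp only [sum_empty, card_empty, sdiff_empty, sum_range_succ, range_zero, zero_add,
        forall_true_left, Nat.sub_zero] at hx0 hx2 hy1 hy2
      have e1 : (2 + 1) * c = 3 * c := by ring
      rw [e1] at hy2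
      omega
    · have e1 : range 2 \ {0} = {1} := by decide
      rw [e1] at hy1 hy2
      simp only [card_singleton, sum_singleton] at hx1 hx2 hy1 hy2
      have e2 : (2 + 1 - 1) * c = 2 * c := by ring
      rw [e2] at hy2
      have hfz : f = 0 := by omega
      obtain ⟨h3, h4⟩ := hf0 hfz
      apply hpf
      rcases Nat.lt_or_ge (a 0) (a 1 + 2) with h5 | h5
      · exact Pool.Agent.SFG.XUB_.B12 (by omega) (by omega)
      · exact Pool.Agent.SFG.XUB_.R12 (by omega) (by omega)
    · have e1 : range 2 \ {1} = {0} := by decide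
      rw [e1] at hy1 hy2
      simp only [card_singleton, sum_singleton] at hx1 hx2 hy1 hy2
      have e2 : (2 + 1 - 1) * c = 2 * c := by ring
      rw [e2] at hy2
      have hfz : f = 0 := by omega
      obtain ⟨h3, h4⟩ := hf0 hfz
      apply hpf
      rcases Nat.lt_or_ge (a 0) (a 1 + 2) with h5 | h5
      · exact Pool.Agent.SFG.XUB_.B0 0 (Nat.zero_le _) (by omega) (by omega)
      · exact Pool.Agent.SFG.XUB_.R0 (by omega) (by omega)
    · have e1 : range 2 \ {0, 1} = ∅ := by decide
      have e3 : ({0, 1} : Finset ℕ).card = 2 := by decide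
      rw [e1] at hy1 hy2
      rw [e3] at hx1 hx2 hy1 hy2
      simp only [sum_empty, Pool.Agent.SFG.XUB_.s01] at hx1 hx2 hy1 hy2
      omega

end Pool.Agent.SFJ
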