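import Pool.Agent.SFJ.Targets

/-!
# SFJ: the state of a bad colouring (YST)
-/

set_option autoImplicit false

open Finset

namespace Pool.Agent.SFJ

open Pool.Agent.SFH (HS Sto T_THE T_PKE T_SLK T_VRG T_CMN T_PWB T_RFA T_RFB T_VIO T_NKB T_TYZ
  T_STR T_XLT)

open Pool.Agent.SFG (pf PF Gen Rel vv ww)

namespace YST_

/-- A property which holds at `0` and fails at `k` is lost at some step. -/
theorem last {p : ℕ → Prop} (k : ℕ) (h0 : p 0) (hk : ¬ p k) : ∃ K, K < k ∧ p K ∧ ¬ p (K + 1) := by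
  induction k with
  | zero => exact absurd h0 hk
  | succ k ih =>
    by_cases h : p k
    · exact ⟨k, Nat.lt_succ_self k, h, hk⟩
    · obtain ⟨K, h1, h2, h3⟩ := ih h
      exact ⟨K, by omega, h2, h3⟩

end YST_

theorem p_YST (hSFT : Pool.Agent.SFG.T_SFT) : T_YST := by
  intro a k q e N h x y c hxy hc hbad
  have hk2 := h.k2
  have hkk : 5 * k ^ 2 = 5 * (k * k) := by ring
  have hkk2 : 2 * k ≤ k * k := Nat.mul_le_mul_right _ hk2
  have hke : k * k + 10 * k + 10 ≤ e := by
    have h1 := h.ek2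
    have h2 : k ^ 2 = k * k := by ring
    rw [h2] at h1
    omega
  obtain ⟨K, hk, ⟨P, hPK, hPx, hQy⟩, hno⟩ := YST_.last
    (p := fun i => ∃ P ⊆ range i, (P = ∅ ∨ ∑ t ∈ P, a t + 2 * k ≤ x) ∧
      (range i \ P = ∅ ∨ ∑ t ∈ range i \ P, a t + 2 * k ≤ y)) k
    ⟨∅, empty_subset _, Or.inl rfl, Or.inl (by simp)⟩
    (fun ⟨A, hA, h1, h2⟩ => hbad (hSFT a k x y c A hA (by omega) h1 h2))
  have hKP : K ∉ P := fun h1 => by
    have h2 := mem_range.1 (hPK h1)
    omega
  have hPk : P ⊆ range k := hPK.trans (range_subset_range.2 hk.le)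
  have hiP : insert K P ⊆ range k := by
    intro t ht
    rcases mem_insert.1 ht with h1 | h1
    · exact mem_range.2 (by omega)
    · exact hPk h1
  have hdE : Disjoint P (Ico (K + 1) k) := by
    rw [disjoint_left]
    intro t ht h1
    have h2 := mem_range.1 (hPK ht)
    have h3 := mem_Ico.1 h1
    omega
  have hPE : P ∪ Ico (K + 1) k ⊆ range k := by
    intro t ht
    rcases mem_union.1 ht with h1 | h1
    · exact hPk h1
    · exact mem_range.2 (mem_Ico.1 h1).2
  have sI : ∑ t ∈ insert K P, a t = ∑ t ∈ P, a t + a K := by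
    rw [sum_insert hKP, add_comm]
  have sE : ∑ t ∈ P ∪ Ico (K + 1) k, a t = ∑ t ∈ P, a t + ∑ t ∈ Ico (K + 1) k, a t :=
    sum_union hdE
  have cI : (insert K P).card = P.card + 1 := card_insert_of_notMem hKP
  have cE : (P ∪ Ico (K + 1) k).card = P.card + (k - 1 - K) := by
    rw [card_union_of_disjoint hdE, Nat.card_Ico]
    omega
  have cP : P.card ≤ K := by
    have h1 := card_le_card hPK
    rwa [card_range] at h1
  have sQ : ∑ t ∈ range K \ P, a t + ∑ t ∈ P, a t = ∑ t ∈ range K, a t := sum_sdiff hPK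
  have sK : ∑ t ∈ range (K + 1), a t = ∑ t ∈ range K, a t + a K := sum_range_succ _ _
  have sk : ∑ t ∈ range k, a t = ∑ t ∈ range (K + 1), a t + ∑ t ∈ Ico (K + 1) k, a t :=
    (sum_range_add_sum_Ico a (by omega)).symm
  have cA : ∀ A : Finset ℕ, A ⊆ range k → (range k \ A).card + A.card = k := fun A hA => by
    rw [card_sdiff_add_card_eq_card hA, card_range]
  have sA : ∀ A : Finset ℕ, A ⊆ range k →
      ∑ t ∈ range k \ A, a t + ∑ t ∈ A, a t = ∑ t ∈ range k, a t := fun A hA => sum_sdiff hA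
  have sI' := sA _ hiP
  have sE' := sA _ hPE
  have cI' := cA _ hiP
  have cE' := cA _ hPE
  rw [sI] at sI'
  rw [sE] at sE'
  rw [cI] at cI'
  rw [cE] at cE'
  have hP0 : P = ∅ → ∑ t ∈ P, a t = 0 := fun h1 => by rw [h1, sum_empty]
  have hQ0 : range K \ P = ∅ → ∑ t ∈ range K \ P, a t = 0 := fun h1 => by rw [h1, sum_empty]
  have hPK1 : P ⊆ range (K + 1) := hPK.trans (range_subset_range.2 (Nat.le_succ K))
  have hiP1 : insert K P ⊆ range (K + 1) := by
    intro t ht
    rcases mem_insert.1 ht with h1 | h1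
    · exact mem_range.2 (by omega)
    · exact hPK1 h1
  -- the two upper bounds
  have u1 : x < ∑ t ∈ P, a t + a K + 2 * k := by
    by_contra hd
    refine hno ⟨insert K P, hiP1, Or.inr (by rw [sI]; omega), ?_⟩
    have h3 : range (K + 1) \ insert K P = range K \ P := by
      ext t
      simp only [mem_sdiff, mem_range, mem_insert, not_or]
      constructor
      · rintro ⟨h4, h5, h6⟩
        exact ⟨by omega, h6⟩
      · rintro ⟨h4, h5⟩
        exact ⟨by omega, by omega, h5⟩
    rw [h3]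
    exact hQy
  have u2 : y < ∑ t ∈ range K \ P, a t + a K + 2 * k := by
    by_contra hd
    refine hno ⟨P, hPK1, hPx, Or.inr ?_⟩
    have h3 : ∑ t ∈ range (K + 1) \ P, a t + ∑ t ∈ P, a t = ∑ t ∈ range (K + 1), a t :=
      sum_sdiff hPK1
    omega
  -- the critical index is positive
  have hK1 : 1 ≤ K := by
    rcases Nat.eq_zero_or_pos K with h1 | h1
    · exfalso
      have h2 := h.two
      subst h1
      have h3 : ∑ t ∈ range 0, a t = 0 := by simp
      omega
    · exact h1
  have hlo := h.lo K hk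
  have hcr := h.crit (K := K) (m := 4 * k) hk (by omega)
  have haK : 4 * e ≤ a K := by omega
  have hpost : ∑ t ∈ range k, a t + 4 * e ≤ ∑ t ∈ range (K + 1), a t + a K := by omega
  have hrel : Gen a k (5 * k ^ 2) → Rel a k K P := by
    rintro gen A hA ⟨h1, h2⟩
    have h3 : P ∪ Ico (K + 1) k ≠ A := by
      intro h4
      rw [← h4, sE] at h1
      omega
    have h4 := gen _ hPE A hA h3 (by rw [sE]; omega)
    have h5 : A ≠ insert K P := by
      intro h6
      rw [h6, sI] at h2
      omega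
    have h6 := gen A hA _ hiP h5 (by rw [sI]; omega)
    rw [sE, hkk] at h4
    rw [sI, hkk] at h6
    have h7 := sA A hA
    exact hbad (hSFT a k x y c A hA (by omega) (Or.inr (by omega)) (Or.inr (by omega)))
  refine ⟨K, P, hK1, hk, ⟨hPK, ?_, ?_, ?_, ?_, ?_⟩, hrel⟩
  · intro h0
    by_contra hd
    have h1 := hP0 (card_eq_zero.1 h0)
    refine hbad ⟨insert K P, hiP, Or.inl ⟨?_, ?_, ?_⟩⟩
    · rw [sI, cI]
      omega
    · omega
    · intro _
      rw [sI]
      omega
  · intro h0
    by_contra hd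
    refine hbad ⟨insert K P, hiP, Or.inl ⟨?_, ?_, ?_⟩⟩
    · rw [sI, cI]
      omega
    · omega
    · intro h1
      omega
  · by_contra hd
    refine hbad ⟨insert K P, hiP, Or.inr ⟨0, Nat.zero_le _, fun _ => rfl, ?_, ?_⟩⟩
    · rw [sI]
      omega
    · rw [cI]
      omega
  · by_contra hd
    refine hbad ⟨P ∪ Ico (K + 1) k, hPE, Or.inl ⟨?_, ?_, ?_⟩⟩
    · rw [sE, cE]
      omega
    · omega
    · intro _
      rw [sE]
      omega
  · by_contra hd
    have hcB : (range k \ (P ∪ Ico (K + 1) k)).card = K + 1 - P.card := by omega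
    have hm : x * c % 2 < 2 := Nat.mod_lt _ (by norm_num)
    have hmul : (K + 1 - P.card) * c ≤ k * k := Nat.mul_le_mul (by omega) (by omega)
    refine hbad ⟨P ∪ Ico (K + 1) k, hPE, Or.inr
      ⟨∑ t ∈ range K \ P, a t + a K + P.card + (k - 1 - K) - y, ?_, ?_, ?_, ?_⟩⟩
    · rw [hcB]
      omega
    · intro h1
      rw [h1, card_empty] at hcB
      omega
    · rw [sE, hcB]
      omega
    · rw [cE]
      omega

end Pool.Agent.SFJ
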