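import Pool.Agent.SFJ.Targets

/-!
# SFJ, block YUB: the general upper bound (helper90)
-/

set_option autoImplicit false

open Finset

namespace Pool.Agent.SFJ

open Pool.Agent.SFH (HS Sto T_THE T_PKE T_SLK T_VRG T_CMN T_PWB T_RFA T_RFB T_VIO T_NKB T_TYZ
  T_STR T_XLT)

open Pool.Agent.SFG (pf PF Gen Rel vv ww)

theorem p_YUB (hYST : T_YST) : T_YUB := by
  intro a k q e N hpar hN x y c hxy hc
  by_contra hpf
  obtain ⟨K, P, hK, hk, hS, -⟩ := hYST a k q e N hpar x y c hxy hc hpf
  have hNK := hN K hk hK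
  rw [sum_range_succ] at hNK
  have hsum : ∑ t ∈ range K \ P, a t + ∑ t ∈ P, a t = ∑ t ∈ range K, a t :=
    sum_sdiff hS.sub
  have hcard : P.card ≤ K := by
    have h1 := card_le_card hS.sub
    rwa [card_range] at h1
  have x1 := hS.x1
  have x2 := hS.x2
  have y1 := hS.y1
  have y2 := hS.y2
  rcases Nat.eq_zero_or_pos P.card with hp | hp
  · have hP : P = ∅ := card_eq_zero.1 hp
    have hx0 := hS.x0 hp
    rw [hP, sum_empty] at hsum
    rw [hp] at y2
    rw [hP] at y2
    rw [Nat.sub_zero] at y2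
    have h1 : c ≤ (K + 1) * c := Nat.le_mul_of_pos_left c (by omega)
    omega
  · have hx1 := x1 (by omega)
    omega

end Pool.Agent.SFJ
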