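import Pool.Agent.SFJ.Targets

/-!
# SFJ, block YUP: the upper bound in the generic case
-/

set_option autoImplicit false

open Finset

namespace Pool.Agent.SFJ

open Pool.Agent.SFH (HS Sto T_THE T_PKE T_SLK T_VRG T_CMN T_PWB T_RFA T_RFB T_VIO T_NKB T_TYZ
  T_STR T_XLT)

open Pool.Agent.SFG (pf PF Gen Rel vv ww)

namespace YUP_

lemma vv_ge {k K : ℕ} (m : ℕ) (hK : 1 ≤ K) (_hk : K < k) : min (K + 1) (k - 1 - K) ≤ vv k K m := by
  unfold vv
  split_ifs with h1 h2
  · omega
  · have h3 : 2 ≤ k / (K + 1) := by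
      rw [Nat.le_div_iff_mul_le (by omega)]
      omega
    obtain ⟨-, h4, -⟩ := h2
    generalize k / (K + 1) = Q at h3 h4 ⊢
    omega
  · have h3 : 2 ≤ k / (K + 1) := by
      rw [Nat.le_div_iff_mul_le (by omega)]
      omega
    generalize k / (K + 1) = Q at h3 ⊢
    omega

end YUP_

open YUP_ in
theorem p_YUP (hYST : T_YST) (hYAR : Pool.Agent.SFG.T_YAR) : T_YUP := by
  intro a k q e N hpar hgen hvv hww x y c hxy hc
  by_contra hpf
  obtain ⟨K, P, hK, hk, hS, hrel⟩ := hYST a k q e N hpar x y c hxy hc hpf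
  have hvg := vv_ge (a K) hK hk
  have hv := hvv K hk hK
  have hw0 := hww K hk hK
  obtain ⟨f, hN⟩ : ∃ f, N = ∑ t ∈ range (K + 1), a t + a K + f :=
    ⟨N - (∑ t ∈ range (K + 1), a t + a K), by omega⟩
  have hvf : vv k K (a K) ≤ f := by omega
  have hw1 : ∀ P ⊆ range K, P.Nonempty → P ≠ range K → Rel a k K P → ww k K P.card ≤ f := by
    intro P' h1 h2 h3 h4
    have h5 := hw0 P' h1 h2 h3 h4
    omega
  clear hv hw0 hvv hww
  rw [sum_range_succ] at hN
  have hsum : ∑ t ∈ range K \ P, a t + ∑ t ∈ P, a t = ∑ t ∈ range K, a t :=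
    sum_sdiff hS.sub
  have hcard : P.card ≤ K := by
    have h1 := card_le_card hS.sub
    rwa [card_range] at h1
  have x1 := hS.x1
  have x2 := hS.x2
  have y1 := hS.y1
  have y2 := hS.y2
  rcases Nat.eq_zero_or_pos P.card with hp | hp
  · have hP : P = ∅ := card_eq_zero.1 hp
    have hx0 := hS.x0 hp
    rw [hP, sum_empty] at hsum
    rw [hp] at y1 y2
    rw [hP] at y1 y2
    rw [Nat.sub_zero] at y1 y2
    rcases Nat.lt_or_ge x (a K) with hx | hx
    · have h1 : f + 1 < K + 1 := by omega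
      have h2 : f + 1 < k - 1 - K := by omega
      omega
    · obtain ⟨u, hu⟩ : ∃ u, x = a K + u := ⟨x - a K, by omega⟩
      rw [hu] at y2
      have h1 := hYAR k K (a K) u c f hK hk (by omega) (by omega) (by omega)
      omega
  · have hx1 := x1 (by omega)
    rcases Nat.lt_or_ge P.card K with hpK | hpK
    · have hw := hw1 P hS.sub (card_pos.1 hp) (by
        intro h
        rw [h, card_range] at hpK
        exact lt_irrefl _ hpK) (hrel hgen)
      unfold ww at hw
      omega
    · have hPK : P.card = K := le_antisymm hcard hpK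
      have hPe : P = range K := eq_of_subset_of_card_le hS.sub (by rw [card_range]; omega)
      rw [hPK] at hx1 x2 y1 y2
      omega

end Pool.Agent.SFJ
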