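import Pool.Agent.SFJ.Defs
import Pool.Agent.SFH.Targets2

/-!
# SFJ: targets (as in `Pool.Agent.SFH`, with an additive gap)
-/

set_option autoImplicit false

open Finset

namespace Pool.Agent.SFJ

open Pool.Agent.StarF (starForest ramsey)
open Pool.Agent.SFB (Con dg nc Two)
open Pool.Agent.SFG (Cov Vio Sys Out Typ Tig pf PF Gen Rel vv ww)
open Pool.Agent.SFH (HS Sto)

/-- PGH. Two levels on which the two monotone functions are constant. -/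
def T_PGH : Prop := ∀ (k C : ℕ) (κ κ' : ℕ → ℕ), 1 ≤ k → 1 ≤ C → (∀ f, κ f ≤ k) →
  (∀ f, κ' f ≤ k) → (∀ f f', f ≤ f' → κ f' ≤ κ f) → (∀ f f', f ≤ f' → κ' f' ≤ κ' f) →
  ∃ f z, k ≤ z ∧ C * (z + 6 * k + 3) ≤ f ∧ f ≤ k * (C * (6 * k + 4)) ^ (2 * k + 1) ∧
    κ f = κ z ∧ κ' f = κ' z

/-- COL. One colour. -/
def T_COL : Prop := ∀ (V : Type) [Fintype V] [DecidableEq V] (G : SimpleGraph V)
  (Y X : Finset V) (L : ℕ) (P : V → ℝ) (a : ℕ → ℕ) (k K q e f z Q : ℕ) (c : ℕ → V),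
  Par a k q e (Fintype.card V) → k ≤ z → z ≤ f → f ≤ e → 2 * z + 6 * k + 4 ≤ gg k q →
  1 ≤ Q → Fintype.card V ≤ Q * f → 1000 * BJ k q Q z ≤ e → Cov G Y X L P →
  (Xᶜ).card ≤ 6 * k + 2 → K < k → HS G a f K c → (¬ ∃ c' : ℕ → V, HS G a z (K + 1) c') →
  (∀ t < K, c t ∉ Y) →
  ((univ.filter (fun v => (symmDiff (dg G v) (dg G (c 0))).card ≤ BJ k q Q z)).card ≤ k + 1 →
    ∀ v ∈ Y, BJ k q Q z < (symmDiff (dg G v) (dg G (c 0))).card) →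
  ((univ.filter (fun v => (symmDiff (dg G v) (dg G (c 0))ᶜ).card ≤ BJ k q Q z)).card ≤ k + 1 →
    ∀ v ∈ Y, BJ k q Q z < (symmDiff (dg G v) (dg G (c 0))ᶜ).card) →
  1 ≤ K ∧ Fintype.card V ≤ ∑ t ∈ range K, a t + 2 * a K + BJ k q Q z ∧
  ∃ J1 J2, Typ G a k K (BJ k q Q z) (BJ k q Q z) (dg G (c 0)) J1 J2

/-- CLT. -/
def T_CLT : Prop := ∀ (V : Type) [Fintype V] [DecidableEq V] (G : SimpleGraph V) (a : ℕ → ℕ)
  (k K q e B M : ℕ) (X0 : Finset V) (J1 J2 : Finset ℕ), Par a k q e (Fintype.card V) →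
  1 ≤ K → K < k → k ≤ B → 1000 * 2 ^ k * B ≤ e →
  Fintype.card V ≤ ∑ t ∈ range K, a t + 2 * a K + B → M ≤ B + 1 → ¬ Con G k a →
  Typ G a k K B M X0 J1 J2 →
  ∀ u, (dg G u).card ≤ a K + 16 * 2 ^ k * B ∨ (dg G u \ X0).card ≤ 16 * 2 ^ k * B ∨
    (dg G u ∩ X0).card ≤ 16 * 2 ^ k * B

/-- STC. The structure. -/
def T_STC : Prop := ∀ k q : ℕ, 2 ≤ k → 1 ≤ q → ∃ E0 : ℕ, ∀ (V : Type) [Fintype V]
  [DecidableEq V] (G : SimpleGraph V) (a : ℕ → ℕ) (e : ℕ), E0 ≤ e →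
  Par a k q e (Fintype.card V) → ¬ Con G k a → ¬ Con Gᶜ k a →
  ∃ (X : Finset V) (l0 : ℕ), 100 * l0 ≤ e ∧ k ≤ l0 ∧ (Two G X l0 ∨ Two Gᶜ X l0) ∧
    6 * e ≤ X.card ∧ 6 * e ≤ (Xᶜ).card ∧ (a 0 + 5 * e ≤ X.card ∨ a 0 + 5 * e ≤ (Xᶜ).card)

/-- STS. The state of the blocks. -/
def T_STS : Prop := ∀ (V : Type) [Fintype V] [DecidableEq V] (G : SimpleGraph V)
  (a : ℕ → ℕ) (k q e l : ℕ) (X : Finset V), Par a k q e (Fintype.card V) → Two G X l →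
  100 * l ≤ e → 6 * e ≤ X.card → 6 * e ≤ (Xᶜ).card →
  (a 0 + 5 * e ≤ X.card ∨ a 0 + 5 * e ≤ (Xᶜ).card) → ¬ Con G k a →
  ∃ (K : ℕ) (P : Finset ℕ), 1 ≤ K ∧ K < k ∧ P ⊆ range K ∧
    X.card ≤ ∑ t ∈ P, a t + a K + l + k ∧
    (Xᶜ).card ≤ ∑ t ∈ range K \ P, a t + a K + l + k

/-- REF. From a small error to a bounded error. -/
def T_REF : Prop := ∀ (V : Type) [Fintype V] [DecidableEq V] (G : SimpleGraph V)
  (a : ℕ → ℕ) (k q e l : ℕ) (X : Finset V), Par a k q e (Fintype.card V) → Two G X l →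
  100 * l ≤ e → 6 * e ≤ X.card → 6 * e ≤ (Xᶜ).card →
  (a 0 + 5 * e ≤ X.card ∨ a 0 + 5 * e ≤ (Xᶜ).card) → ¬ Con G k a → ¬ Con Gᶜ k a →
  Two G X (12 * k)

/-- TGC. -/
def T_TGC : Prop := ∀ (V : Type) [Fintype V] [DecidableEq V] (G : SimpleGraph V)
  (a : ℕ → ℕ) (k q e t : ℕ) (X : Finset V) (v0 : V), Par a k q e (Fintype.card V) →
  Two G X (12 * k) → 6 * e ≤ X.card → 6 * e ≤ (Xᶜ).card →
  Tig a k (12 * k) t X → (∀ v ∈ X, X.card - a t ≤ (dg Gᶜ v ∩ X).card) → v0 ∈ X →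
  X.card - a t + X.card * (X.card - a t) % 2 ≤ (dg Gᶜ v0 ∩ X).card → X.card + 1 < a t + k →
  pf a k X.card (Xᶜ).card (X.card - a t) → Con G k a ∨ Con Gᶜ k a

/-- TGD. -/
def T_TGD : Prop := ∀ (V : Type) [Fintype V] [DecidableEq V] (G : SimpleGraph V)
  (a : ℕ → ℕ) (k q e t : ℕ) (X : Finset V), Par a k q e (Fintype.card V) →
  Two G X (12 * k) → 6 * e ≤ X.card → 6 * e ≤ (Xᶜ).card →
  Tig a k (12 * k) t X → (∀ v ∈ X, X.card - a t ≤ (dg Gᶜ v ∩ X).card) →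
  a t + k ≤ X.card + 1 → pf a k (a t) (Fintype.card V - a t) 0 → Con Gᶜ k a

/-- TIG. -/
def T_TIG : Prop := ∀ (V : Type) [Fintype V] [DecidableEq V] (G : SimpleGraph V)
  (a : ℕ → ℕ) (k q e : ℕ) (X : Finset V), Par a k q e (Fintype.card V) →
  Two G X (12 * k) → 6 * e ≤ X.card → 6 * e ≤ (Xᶜ).card →
  (∀ x y c : ℕ, x + y = Fintype.card V → c + 1 < k → (c < x ∨ c = 0) → pf a k x y c) →
  (∃ t < k, a t + 1 ≤ X.card ∧ X.card < a t + k + 12 * k) → Con G k a ∨ Con Gᶜ k a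

/-- EXA. -/
def T_EXA : Prop := ∀ (V : Type) [Fintype V] [DecidableEq V] (G : SimpleGraph V)
  (a : ℕ → ℕ) (k q e : ℕ) (X : Finset V), Par a k q e (Fintype.card V) →
  Two G X (12 * k) → 6 * e ≤ X.card → 6 * e ≤ (Xᶜ).card →
  (∀ x y c : ℕ, x + y = Fintype.card V → c + 1 < k → (c < x ∨ c = 0) → pf a k x y c) →
  Con G k a ∨ Con Gᶜ k a

/-- UPP. The upper bound. -/
def T_UPP : Prop := ∀ k q : ℕ, 2 ≤ k → 1 ≤ q → ∃ E0 : ℕ, ∀ (a : ℕ → ℕ) (e N : ℕ), E0 ≤ e →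
  Par a k q e N →
  (∀ x y c : ℕ, x + y = N → c + 1 < k → (c < x ∨ c = 0) → pf a k x y c) →
  ∀ G : SimpleGraph (Fin N), Con G k a ∨ Con Gᶜ k a

/-- YST. -/
def T_YST : Prop := ∀ (a : ℕ → ℕ) (k q e N : ℕ), Par a k q e N →
  ∀ x y c : ℕ, x + y = N → c + 1 < k → ¬ pf a k x y c →
  ∃ K P, 1 ≤ K ∧ K < k ∧ Sto a k K x y c P ∧ (Gen a k (5 * k ^ 2) → Rel a k K P)

/-- YCV. -/
def T_YCV : Prop := ∀ (a : ℕ → ℕ) (k q e N : ℕ), Par a k q e N → Gen a k (5 * k ^ 2) →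
  ∀ (K x y c : ℕ) (P : Finset ℕ), 1 ≤ K → K < k → x + y = N → c + 1 < k →
  Sto a k K x y c P → Rel a k K P → ∑ t ∈ P, a t + a K ≤ x → ¬ pf a k x y c

/-- YUB. -/
def T_YUB : Prop := ∀ (a : ℕ → ℕ) (k q e N : ℕ), Par a k q e N →
  (∀ K < k, 1 ≤ K → ∑ t ∈ range (K + 1), a t + a K + k ≤ N + 1) →
  ∀ x y c : ℕ, x + y = N → c + 1 < k → pf a k x y c

/-- YUP. -/
def T_YUP : Prop := ∀ (a : ℕ → ℕ) (k q e N : ℕ), Par a k q e N → Gen a k (5 * k ^ 2) →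
  (∀ K < k, 1 ≤ K → ∑ t ∈ range (K + 1), a t + a K + vv k K (a K) ≤ N) →
  (∀ K < k, 1 ≤ K → ∀ P ⊆ range K, P.Nonempty → P ≠ range K → Rel a k K P →
    ∑ t ∈ range (K + 1), a t + a K + ww k K P.card ≤ N) →
  ∀ x y c : ℕ, x + y = N → c + 1 < k → pf a k x y c

/-- YLV. -/
def T_YLV : Prop := ∀ (a : ℕ → ℕ) (k q e N K : ℕ), Par a k q e N → Gen a k (5 * k ^ 2) →
  1 ≤ K → K < k → N + 1 ≤ ∑ t ∈ range (K + 1), a t + a K + vv k K (a K) →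
  ∃ x y c : ℕ, x + y = N ∧ c + 1 < k ∧ (c < x ∨ c = 0) ∧ ¬ pf a k x y c

/-- YLW. -/
def T_YLW : Prop := ∀ (a : ℕ → ℕ) (k q e N K : ℕ) (P : Finset ℕ), Par a k q e N →
  Gen a k (5 * k ^ 2) → 1 ≤ K → K < k → P ⊆ range K → P.Nonempty → P ≠ range K →
  Rel a k K P → N + 1 ≤ ∑ t ∈ range (K + 1), a t + a K + ww k K P.card →
  ∃ x y c : ℕ, x + y = N ∧ c + 1 < k ∧ (c < x ∨ c = 0) ∧ ¬ pf a k x y c

/-- XUT. -/
def T_XUT : Prop := ∀ (a : ℕ → ℕ) (q e N : ℕ), Par a 3 q e N →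
  N = max (a 0 + 2 * a 1 + 1)
    (a 0 + a 1 + 2 * a 2 + (if a 0 = a 1 ∨ a 1 + a 2 ≤ a 0 then 1 else 0)) →
  ∀ x y c : ℕ, x + y = N → c + 1 < 3 → pf a 3 x y c

end Pool.Agent.SFJ
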